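import Mathlib

set_option autoImplicit false

/-! # Project DD: the choice of parameters -/

namespace Pool.Agent.Helper89.DD

/-- number of primes with large exponents: `(A0 + 2) ^ B ≤ d`, `log d ≤ 2 L`,
`8 / w ≤ log (A0 + 2)` give `B ≤ w L / 4` -/
theorem big_le (A0 B : ℕ) (d L w : ℝ) (hw : 0 < w) (hd : ((A0 : ℝ) + 2) ^ B ≤ d)
    (hdL : Real.log d ≤ 2 * L) (hA0 : 8 / w ≤ Real.log ((A0 : ℝ) + 2)) : (B : ℝ) ≤ w * L / 4 := by
  have hpos : (0 : ℝ) < (A0 : ℝ) + 2 := by positivity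
  have h1 : (B : ℝ) * Real.log ((A0 : ℝ) + 2) ≤ Real.log d := by
    rw [← Real.log_pow]
    exact Real.log_le_log (pow_pos hpos B) hd
  have h2 : (B : ℝ) * (8 / w) ≤ 2 * L :=
    (mul_le_mul_of_nonneg_left hA0 (Nat.cast_nonneg B)).trans (h1.trans hdL)
  have h3 : (B : ℝ) * 8 ≤ 2 * L * w := by
    have := mul_le_mul_of_nonneg_right h2 hw.le
    have e : (B : ℝ) * (8 / w) * w = B * 8 := by field_simp
    linarith
  linarith

/-- the parameters of the peeling theorem. Here `N = |A|`, `d = |box|`, `l = ⌊θ L⌋`,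
`θ = w / (4 (b + 1) (A0 + 1) 4 ^ b)`, `α = N / d`. -/
theorem params (A0 b : ℕ) (hb : 1 ≤ b) (w : ℝ) (hw : 0 < w) (hw1 : w ≤ 1) :
    ∃ c : ℝ, 0 < c ∧ c ≤ 1 / 2 ∧ ∃ L0 : ℝ, 0 < L0 ∧ ∀ N d : ℝ, 1 ≤ N → N ≤ d →
      (1 - c) * Real.log d ≤ Real.log N → L0 ≤ Real.log N →
      ∃ l : ℕ, 1 ≤ l ∧ ((b * l : ℕ) : ℝ) ≤ w * Real.log N / 4 ∧
        ((A0 * (b * l) * 4 ^ b : ℕ) : ℝ) ≤ w * Real.log N / 4 ∧
        (2 / (N / d)) ^ (2 ^ b) ≤ (2 : ℝ) ^ l ∧
        ∀ Y : ℝ, 0 < Y → 2 * (N / d / 2) ^ (2 ^ b) * d ≤ Y * ((A0 : ℝ) + 1) ^ (b * l) →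
          (1 - w) * Real.log N ≤ Real.log Y := by
  have hbR : (1 : ℝ) ≤ b := by exact_mod_cast hb
  have hA : (0 : ℝ) ≤ A0 := Nat.cast_nonneg A0
  have h4 : (1 : ℝ) ≤ 4 ^ b := one_le_pow₀ (by norm_num)
  have h2b : (1 : ℝ) ≤ 2 ^ b := one_le_pow₀ (by norm_num)
  set K : ℝ := 4 * (b + 1) * (A0 + 1) * 4 ^ b with hK
  have hKpos : 0 < K := by positivity
  set θ : ℝ := w / K with hθ
  have hθpos : 0 < θ := div_pos hw hKpos
  have hθK : θ * K = w := div_mul_cancel₀ w hKpos.ne'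
  have hlog2 : 0.69 < Real.log 2 := by have := Real.log_two_gt_d9; linarith
  have hlog2' : Real.log 2 < 0.7 := by have := Real.log_two_lt_d9; linarith
  refine ⟨min (1 / 2) (θ / (8 * 2 ^ b)), lt_min (by norm_num) (by positivity), min_le_left _ _,
    8 * (2 ^ b + 1) / θ, by positivity, ?_⟩
  intro N d hN hNd hc hL0
  set c : ℝ := min (1 / 2) (θ / (8 * 2 ^ b)) with hcdef
  set L : ℝ := Real.log N with hL
  have hN0 : 0 < N := by linarith
  have hd0 : 0 < d := by linarith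
  have hc12 : c ≤ 1 / 2 := min_le_left _ _
  have hcθ : c * (8 * 2 ^ b) ≤ θ := by
    have : c ≤ θ / (8 * 2 ^ b) := min_le_right _ _
    rwa [le_div_iff₀ (by positivity)] at this
  have hc0 : 0 < c := lt_min (by norm_num) (by positivity)
  have hLd : L ≤ Real.log d := Real.log_le_log hN0 hNd
  have hθL : 8 * (2 ^ b + 1) ≤ θ * L := by
    have := (div_le_iff₀ hθpos).1 hL0
    linarith
  have hLpos : 0 < L := by
    by_contra hcon
    push Not at hcon
    have : θ * L ≤ 0 := mul_nonpos_of_nonneg_of_nonpos hθpos.le hcon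
    linarith
  have hd2 : Real.log d ≤ 2 * L := by
    have h0 : 0 ≤ Real.log d := by linarith
    have h1 := mul_le_mul_of_nonneg_right hc12 h0
    linarith
  have hdiff : Real.log d - L ≤ 2 * c * L := by
    have h1 := mul_le_mul_of_nonneg_left hd2 hc0.le
    linarith
  have hfl := Nat.floor_le (mul_nonneg hθpos.le hLpos.le)
  have hfl2 := Nat.lt_floor_add_one (θ * L)
  set l : ℕ := ⌊θ * L⌋₊ with hl
  have hl1 : 1 ≤ l := by
    have : (1 : ℝ) ≤ θ * L := by linarith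
    exact Nat.le_floor (by exact_mod_cast this)
  -- `b * (A0 + 1) * 4 ^ b * θ ≤ w / 4`
  have hkey : (b : ℝ) * (A0 + 1) * 4 ^ b * θ ≤ w / 4 := by
    have e : w = θ * (4 * (b + 1) * (A0 + 1) * 4 ^ b) := by rw [← hK, hθK]
    rw [e]
    have h0 : 0 ≤ θ * ((A0 + 1) * 4 ^ b) := by positivity
    have e2 : θ * (4 * (b + 1) * (A0 + 1) * 4 ^ b) / 4 =
        (b : ℝ) * (A0 + 1) * 4 ^ b * θ + θ * ((A0 + 1) * 4 ^ b) := by ring
    rw [e2]
    linarith
  have hkeyl : (b : ℝ) * (A0 + 1) * 4 ^ b * l ≤ w * L / 4 := by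
    have h0 : (0 : ℝ) ≤ (b : ℝ) * (A0 + 1) * 4 ^ b := by positivity
    calc (b : ℝ) * (A0 + 1) * 4 ^ b * l ≤ (b : ℝ) * (A0 + 1) * 4 ^ b * (θ * L) :=
        mul_le_mul_of_nonneg_left hfl h0
      _ = ((b : ℝ) * (A0 + 1) * 4 ^ b * θ) * L := by ring
      _ ≤ (w / 4) * L := mul_le_mul_of_nonneg_right hkey hLpos.le
      _ = w * L / 4 := by ring
  have hl0 : (0 : ℝ) ≤ l := Nat.cast_nonneg l
  have hbl : (b : ℝ) * l ≤ w * L / 4 := by
    refine le_trans ?_ hkeyl
    have h0 : (0 : ℝ) ≤ (b : ℝ) * l := by positivity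
    have h1 : (1 : ℝ) ≤ ((A0 : ℝ) + 1) * 4 ^ b := by
      have := mul_le_mul_of_nonneg_left h4 (show (0 : ℝ) ≤ (A0 : ℝ) + 1 by linarith)
      linarith
    calc (b : ℝ) * l = (b : ℝ) * l * 1 := (mul_one _).symm
      _ ≤ (b : ℝ) * l * (((A0 : ℝ) + 1) * 4 ^ b) := mul_le_mul_of_nonneg_left h1 h0
      _ = _ := by ring
  have hbA : (b : ℝ) * l * A0 ≤ w * L / 4 := by
    refine le_trans ?_ hkeyl
    have h0 : (0 : ℝ) ≤ (b : ℝ) * l := by positivity
    have h1 : (A0 : ℝ) ≤ ((A0 : ℝ) + 1) * 4 ^ b := by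
      have := mul_le_mul_of_nonneg_left h4 (show (0 : ℝ) ≤ (A0 : ℝ) + 1 by linarith)
      linarith
    calc (b : ℝ) * l * A0 ≤ (b : ℝ) * l * (((A0 : ℝ) + 1) * 4 ^ b) :=
        mul_le_mul_of_nonneg_left h1 h0
      _ = _ := by ring
  -- the main inequality of the logarithms
  have hlog : (2 : ℝ) ^ b * (Real.log 2 + Real.log d - L) ≤ l * Real.log 2 := by
    have e1 : (2 : ℝ) ^ b * (Real.log d - L) ≤ θ * L / 4 := by
      calc (2 : ℝ) ^ b * (Real.log d - L) ≤ 2 ^ b * (2 * c * L) :=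
          mul_le_mul_of_nonneg_left hdiff (by positivity)
        _ = (c * (8 * 2 ^ b)) * L / 4 := by ring
        _ ≤ θ * L / 4 := by
          have := mul_le_mul_of_nonneg_right hcθ hLpos.le
          linarith
    have e2 : θ * L - 1 ≤ l := by linarith
    have e3 : (θ * L - 1) * Real.log 2 ≤ l * Real.log 2 :=
      mul_le_mul_of_nonneg_right e2 (by linarith)
    have e4 : (2 : ℝ) ^ b * Real.log 2 + θ * L / 4 ≤ (θ * L - 1) * Real.log 2 := by
      have hθL' : 0 < θ * L := mul_pos hθpos hLpos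
      have p1 : θ * L * 0.69 ≤ θ * L * Real.log 2 := mul_le_mul_of_nonneg_left hlog2.le hθL'.le
      have p2 : ((2 : ℝ) ^ b + 1) * Real.log 2 ≤ (2 ^ b + 1) * 0.7 :=
        mul_le_mul_of_nonneg_left hlog2'.le (by positivity)
      have e : (θ * L - 1) * Real.log 2 = θ * L * Real.log 2 - Real.log 2 := by ring
      rw [e]
      linarith
    have e5 : (2 : ℝ) ^ b * (Real.log 2 + Real.log d - L) =
        2 ^ b * Real.log 2 + 2 ^ b * (Real.log d - L) := by ring
    rw [e5]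
    linarith
  refine ⟨l, hl1, by push_cast; exact hbl, ?_, ?_, ?_⟩
  · push_cast
    refine le_trans ?_ hkeyl
    have h0 : (0 : ℝ) ≤ (b : ℝ) * l * 4 ^ b := by positivity
    have e : (b : ℝ) * (A0 + 1) * 4 ^ b * l = A0 * (b * l) * 4 ^ b + b * l * 4 ^ b := by ring
    linarith
  · have hpos : 0 < 2 / (N / d) := by positivity
    rw [← Real.log_le_log_iff (pow_pos hpos _) (by positivity), Real.log_pow, Real.log_pow,
      Real.log_div (by norm_num) (by positivity), Real.log_div hN0.ne' hd0.ne']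
    push_cast
    have e : (2 : ℝ) ^ b * (Real.log 2 - (Real.log N - Real.log d)) =
        2 ^ b * (Real.log 2 + Real.log d - L) := by rw [hL]; ring
    rw [e]
    exact hlog
  · intro Y hY hineq
    have hA1 : (0 : ℝ) < (A0 : ℝ) + 1 := by positivity
    have h1 := Real.log_le_log (by positivity) hineq
    rw [Real.log_mul (by positivity) hd0.ne', Real.log_mul (by norm_num) (by positivity),
      Real.log_pow, Real.log_div (by positivity) (by norm_num), Real.log_div hN0.ne' hd0.ne',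
      Real.log_mul hY.ne' (by positivity), Real.log_pow] at h1
    push_cast at h1
    have hlA : Real.log ((A0 : ℝ) + 1) ≤ A0 := by
      have := Real.log_le_sub_one_of_pos hA1
      linarith
    have h2 : (b : ℝ) * l * Real.log ((A0 : ℝ) + 1) ≤ w * L / 4 :=
      le_trans (mul_le_mul_of_nonneg_left hlA (by positivity)) hbA
    have h3 : (l : ℝ) * Real.log 2 ≤ w * L / 4 := by
      have e1 : (l : ℝ) * Real.log 2 ≤ l := by
        have := mul_le_mul_of_nonneg_left (show Real.log 2 ≤ 1 by linarith) hl0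
        linarith
      have e2 : (l : ℝ) ≤ b * l := by
        have := mul_le_mul_of_nonneg_right hbR hl0
        linarith
      linarith
    have h4' : (2 : ℝ) ^ b * (Real.log N - Real.log d - Real.log 2) =
        - (2 ^ b * (Real.log 2 + Real.log d - L)) := by rw [hL]; ring
    rw [h4'] at h1
    have hwL : 0 < w * L := mul_pos hw hLpos
    have : (1 - w) * L = L - w * L := by ring
    rw [this]
    linarith

end Pool.Agent.Helper89.DD
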