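import Pool.Agent.Helper89.DD.Defs

set_option autoImplicit false

/-! # Project DD: few large base elements divide differences -/

namespace Pool.Agent.Helper89.DD

open Finset

theorem diffs_pos (H : Finset ℕ) : 0 < diffs H := by
  unfold diffs
  refine Finset.prod_pos fun x hx => ?_
  have hne := (Finset.mem_offDiag.1 hx).2.2
  omega

theorem diffs_le (H : Finset ℕ) (V : ℕ) (hH : ∀ h ∈ H, h ≤ V) (hV : 1 ≤ V) :
    diffs H ≤ V ^ (H.card ^ 2) := by
  unfold diffs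
  have h1 : ∏ x ∈ H.offDiag, ((x.1 : ℤ) - (x.2 : ℤ)).natAbs ≤ V ^ H.offDiag.card := by
    refine Finset.prod_le_pow_card _ _ _ fun x hx => ?_
    have h2 := Finset.mem_offDiag.1 hx
    have h3 := hH _ h2.1
    have h4 := hH _ h2.2.1
    omega
  refine h1.trans (Nat.pow_le_pow_right hV ?_)
  rw [Finset.offDiag_card, sq]
  exact Nat.sub_le _ _

/-- a base `J` all of whose elements divide `D`, `0 < D`, has product dividing `D`; if all elements
exceed `y ≥ 2` and `D ≤ y ^ E`, then `|J| ≤ E` -/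
theorem base_card_le (J : Finset ℕ) (hJ : IsBase J) (D y E : ℕ) (hD : 0 < D) (hy : 2 ≤ y)
    (hJy : ∀ q ∈ J, y ≤ q) (hJD : ∀ q ∈ J, q ∣ D) (hDE : D ≤ y ^ E) : J.card ≤ E := by
  have h1 : ∏ q ∈ J, q ∣ D := by
    refine Finset.prod_dvd_of_isRelPrime ?_ hJD
    intro a ha b hb hab
    exact Nat.coprime_iff_isRelPrime.1 (hJ.2 a ha b hb hab)
  have h2 : y ^ J.card ≤ ∏ q ∈ J, q := Finset.pow_card_le_prod _ _ _ hJy
  have h3 : y ^ J.card ≤ y ^ E := h2.trans ((Nat.le_of_dvd hD h1).trans hDE)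
  exact (Nat.pow_le_pow_iff_right (by omega)).1 h3

/-- congruent different elements of `H` -/
theorem dvd_diffs (H : Finset ℕ) (p : ℕ) (h : ¬ p ∣ diffs H) :
    ∀ g ∈ H, ∀ g' ∈ H, ((g : ℕ) : ZMod p) = ((g' : ℕ) : ZMod p) → g = g' := by
  intro g hg g' hg' hgg
  by_contra hne
  refine h ?_
  have h1 : p ∣ ((g : ℤ) - (g' : ℤ)).natAbs := by
    have h2 := (ZMod.natCast_eq_natCast_iff g g' p).1 hgg
    have h3 := h2.symm.dvd
    exact Int.natCast_dvd.1 h3
  have h4 : (g, g') ∈ H.offDiag := Finset.mem_offDiag.2 ⟨hg, hg', hne⟩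
  exact h1.trans (Finset.dvd_prod_of_mem (fun x : ℕ × ℕ => ((x.1 : ℤ) - (x.2 : ℤ)).natAbs) h4)

end Pool.Agent.Helper89.DD
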