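import Pool.Agent.Helper89.DD.Step

set_option autoImplicit false

/-! # Project DD: peeling all blocks -/

namespace Pool.Agent.Helper89.DD

open Finset

/-- products of elements of two coprime sets determine the factors -/
theorem cop_inj (P Z : Finset ℕ) (h : Cop P Z) (hP : ∀ s ∈ P, 0 < s) :
    ∀ s ∈ P, ∀ s' ∈ P, ∀ z ∈ Z, ∀ z' ∈ Z, s * z = s' * z' → s = s' ∧ z = z' := by
  intro s hs s' hs' z hz z' hz' he
  have h1 : s ∣ s' := by
    have : s ∣ s' * z' := ⟨z, he.symm⟩
    exact (h s hs z' hz').dvd_of_dvd_mul_right this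
  have h2 : s' ∣ s := by
    have : s' ∣ s * z := ⟨z', he⟩
    exact (h s' hs' z hz).dvd_of_dvd_mul_right this
  have h3 : s = s' := Nat.dvd_antisymm h1 h2
  subst h3
  exact ⟨rfl, Nat.eq_of_mul_eq_mul_left (hP s hs) he⟩

theorem cop_prodL (P : Finset ℕ) (L : List (Finset ℕ)) (h : ∀ Q ∈ L, Cop P Q) :
    Cop P (prodL L) := by
  induction L with
  | nil =>
    intro s _ z hz
    rw [prodL, Finset.mem_singleton] at hz
    rw [hz]
    exact Nat.coprime_one_right s
  | cons Q L ih =>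
    intro s hs z hz
    rw [prodL, Finset.mem_image₂] at hz
    obtain ⟨q, hq, w, hw, rfl⟩ := hz
    exact Nat.Coprime.mul_right (h Q List.mem_cons_self s hs q hq)
      (ih (fun Q' hQ' => h Q' (List.mem_cons_of_mem _ hQ')) s hs w hw)

theorem prodL_cop (Z : Finset ℕ) (L : List (Finset ℕ)) (h : ∀ Q ∈ L, Cop Q Z) :
    Cop (prodL L) Z := by
  intro s hs z hz
  exact (cop_prodL Z L (fun Q hQ z' hz' q hq => (h Q hQ q hq z' hz').symm) z hz s hs).symm

theorem prodL_pos (L : List (Finset ℕ)) (h : ∀ P ∈ L, ∀ s ∈ P, 0 < s) :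
    ∀ s ∈ prodL L, 0 < s := by
  induction L with
  | nil =>
    intro s hs
    rw [prodL, Finset.mem_singleton] at hs
    rw [hs]
    exact Nat.one_pos
  | cons Q L ih =>
    intro s hs
    rw [prodL, Finset.mem_image₂] at hs
    obtain ⟨q, hq, w, hw, rfl⟩ := hs
    exact Nat.mul_pos (h Q List.mem_cons_self q hq)
      (ih (fun Q' hQ' => h Q' (List.mem_cons_of_mem _ hQ')) w hw)

private theorem Iter_card (P Z : Finset ℕ) (h : Cop P Z) (hP : ∀ s ∈ P, 0 < s) :
    (Finset.image₂ (fun s t : ℕ => s * t) P Z).card = P.card * Z.card := by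
  rw [Finset.card_image₂_iff]
  rintro ⟨s, z⟩ hsz ⟨s', z'⟩ hsz' he
  have h1 := Set.mem_prod.1 hsz
  have h2 := Set.mem_prod.1 hsz'
  obtain ⟨h3, h4⟩ := cop_inj P Z h hP s (Finset.mem_coe.1 h1.1) s' (Finset.mem_coe.1 h2.1) z
    (Finset.mem_coe.1 h1.2) z' (Finset.mem_coe.1 h2.2) he
  rw [h3, h4]

/-- peeling: induction on `L`. For `P :: L` apply `step` to `P` and `Z' = prodL L * Z`, then the
induction hypothesis to `A' = {z ∈ Z' : s z, t z ∈ A}` with `α ^ 2 / 2`, giving `H'` and `Y`; take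
`H = s H' ∪ t H'`. For `L = []` take `H = {1}`, `Y = A`. -/
theorem iter (L : List (Finset ℕ)) : ∀ (Z A : Finset ℕ) (α : ℝ),
    (∀ P ∈ L, ∀ s ∈ P, 0 < s) → L.Pairwise Cop → (∀ P ∈ L, Cop P Z) → (∀ z ∈ Z, 0 < z) →
    Z.Nonempty → (∀ P ∈ L, P.Nonempty) → 0 < α → α ≤ 1 →
    (∀ P ∈ L, (2 / α) ^ (2 ^ L.length) ≤ (P.card : ℝ)) →
    (∀ x ∈ A, ∃ s ∈ prodL L, ∃ z ∈ Z, s * z = x) →
    α * ((prodL L).card : ℝ) * (Z.card : ℝ) ≤ (A.card : ℝ) →
    ∃ H ⊆ prodL L, H.card = 2 ^ L.length ∧ ∃ Y ⊆ Z,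
      2 * (α / 2) ^ (2 ^ L.length) * (Z.card : ℝ) ≤ (Y.card : ℝ) ∧
      ∀ h ∈ H, ∀ y ∈ Y, h * y ∈ A := by
  induction L with
  | nil =>
    intro Z A α _ _ _ _ _ _ _ _ _ hA hc
    refine ⟨{1}, by simp [prodL], by simp, A, ?_, ?_, ?_⟩
    · intro x hx
      obtain ⟨s, hs, z, hz, rfl⟩ := hA x hx
      rw [prodL, Finset.mem_singleton] at hs
      rwa [hs, one_mul]
    · simp only [prodL, Finset.card_singleton, Nat.cast_one, mul_one] at hc
      simp only [List.length_nil, pow_zero, pow_one]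
      linarith
    · intro h hh y hy
      rw [Finset.mem_singleton] at hh
      rwa [hh, one_mul]
  | cons P L ih =>
    intro Z A α hpos hpw hcop hZpos hZ hne hα hα1 hbig hA hc
    have hposL : ∀ Q ∈ L, ∀ s ∈ Q, 0 < s := fun Q hQ => hpos Q (List.mem_cons_of_mem _ hQ)
    have hposP : ∀ s ∈ P, 0 < s := hpos P List.mem_cons_self
    have hcopL : ∀ Q ∈ L, Cop Q Z := fun Q hQ => hcop Q (List.mem_cons_of_mem _ hQ)
    have hPZ : Cop P Z := hcop P List.mem_cons_self
    rw [List.pairwise_cons] at hpw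
    obtain ⟨hPL, hpw⟩ := hpw
    have hPW : Cop P (prodL L) := cop_prodL P L hPL
    have hWZ : Cop (prodL L) Z := prodL_cop Z L hcopL
    have hWpos : ∀ s ∈ prodL L, 0 < s := prodL_pos L hposL
    have hWne : (prodL L).Nonempty := by
      have h1 : ∀ L' : List (Finset ℕ), (∀ Q ∈ L', Q.Nonempty) → (prodL L').Nonempty := by
        intro L' hL'
        induction L' with
        | nil => exact ⟨1, by simp [prodL]⟩
        | cons Q L' ih' =>
          rw [prodL]
          exact Finset.Nonempty.image₂ (hL' Q List.mem_cons_self)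
            (ih' fun Q' hQ' => hL' Q' (List.mem_cons_of_mem _ hQ'))
      exact h1 L fun Q hQ => hne Q (List.mem_cons_of_mem _ hQ)
    set Z' : Finset ℕ := Finset.image₂ (fun s t : ℕ => s * t) (prodL L) Z with hZ'
    have hZ'ne : Z'.Nonempty := Finset.Nonempty.image₂ hWne hZ
    have hPZ' : Cop P Z' := by
      intro s hs z hz
      rw [hZ', Finset.mem_image₂] at hz
      obtain ⟨w, hw, y, hy, rfl⟩ := hz
      exact Nat.Coprime.mul_right (hPW s hs w hw) (hPZ s hs y hy)
    have hcZ' : (Z'.card : ℝ) = ((prodL L).card : ℝ) * (Z.card : ℝ) := by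
      rw [hZ', Iter_card _ _ hWZ hWpos, Nat.cast_mul]
    have hcP : ((prodL (P :: L)).card : ℝ) = (P.card : ℝ) * ((prodL L).card : ℝ) := by
      rw [prodL, Iter_card _ _ hPW hposP, Nat.cast_mul]
    have h2a : 2 ≤ 2 / α := by
      rw [le_div_iff₀ hα]
      linarith
    have hPbig : 2 ≤ α ^ 2 * (P.card : ℝ) := by
      have h1 : (2 / α) ^ (2 ^ (P :: L).length) ≤ (P.card : ℝ) := hbig P List.mem_cons_self
      have h2 : (2 / α) ^ 2 ≤ (2 / α) ^ (2 ^ (P :: L).length) := by
        apply pow_le_pow_right₀ (by linarith)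
        rw [List.length_cons, pow_succ]
        have := Nat.one_le_two_pow (n := L.length)
        omega
      have h3 : α ^ 2 * (2 / α) ^ 2 ≤ α ^ 2 * (P.card : ℝ) :=
        mul_le_mul_of_nonneg_left (h2.trans h1) (sq_nonneg α)
      have h4 : α ^ 2 * (2 / α) ^ 2 = 4 := by
        field_simp
        norm_num
      linarith
    obtain ⟨s, hs, t, ht, hst, hcard⟩ := step P Z' A (cop_inj P Z' hPZ' hposP) (by
        intro x hx
        obtain ⟨u, hu, z, hz, rfl⟩ := hA x hx
        rw [prodL, Finset.mem_image₂] at hu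
        obtain ⟨s, hs, w, hw, rfl⟩ := hu
        refine ⟨s, hs, w * z, ?_, by ring⟩
        rw [hZ', Finset.mem_image₂]
        exact ⟨w, hw, z, hz, rfl⟩) hZ'ne α hα hPbig hα1 (by
        rw [hcP] at hc
        rw [hcZ']
        calc α * (P.card : ℝ) * (((prodL L).card : ℝ) * (Z.card : ℝ))
            = α * ((P.card : ℝ) * ((prodL L).card : ℝ)) * (Z.card : ℝ) := by ring
          _ ≤ _ := hc)
    have hα' : 0 < α ^ 2 / 2 := by positivity
    have hα1' : α ^ 2 / 2 ≤ 1 := by nlinarith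
    have hpw2 : (2 / (α ^ 2 / 2)) ^ (2 ^ L.length) = (2 / α) ^ (2 ^ (P :: L).length) := by
      have h1 : 2 / (α ^ 2 / 2) = (2 / α) ^ 2 := by
        field_simp
      rw [h1, ← pow_mul, List.length_cons, pow_succ 2, mul_comm]
    obtain ⟨H, hHW, hHc, Y, hYZ, hYc, hHY⟩ := ih Z
      (Z'.filter (fun z => s * z ∈ A ∧ t * z ∈ A)) (α ^ 2 / 2) hposL hpw hcopL hZpos hZ
      (fun Q hQ => hne Q (List.mem_cons_of_mem _ hQ)) hα' hα1'
      (fun Q hQ => by
        rw [hpw2]
        exact hbig Q (List.mem_cons_of_mem _ hQ))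
      (fun x hx => by
        have h1 := (Finset.mem_filter.1 hx).1
        rw [hZ', Finset.mem_image₂] at h1
        exact h1)
      (by
        rw [hcZ'] at hcard
        calc α ^ 2 / 2 * ((prodL L).card : ℝ) * (Z.card : ℝ)
            = α ^ 2 / 2 * (((prodL L).card : ℝ) * (Z.card : ℝ)) := by ring
          _ ≤ _ := hcard)
    have hsi : Function.Injective (fun x : ℕ => s * x) := fun x y hxy =>
      Nat.eq_of_mul_eq_mul_left (hposP s hs) hxy
    have hti : Function.Injective (fun x : ℕ => t * x) := fun x y hxy =>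
      Nat.eq_of_mul_eq_mul_left (hposP t ht) hxy
    refine ⟨H.image (fun x => s * x) ∪ H.image (fun x => t * x), ?_, ?_, Y, hYZ, ?_, ?_⟩
    · intro x hx
      rw [prodL, Finset.mem_image₂]
      rcases Finset.mem_union.1 hx with hx | hx
      · obtain ⟨h, hh, rfl⟩ := Finset.mem_image.1 hx
        exact ⟨s, hs, h, hHW hh, rfl⟩
      · obtain ⟨h, hh, rfl⟩ := Finset.mem_image.1 hx
        exact ⟨t, ht, h, hHW hh, rfl⟩
    · rw [Finset.card_union_of_disjoint, Finset.card_image_of_injective _ hsi,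
        Finset.card_image_of_injective _ hti, hHc, List.length_cons, pow_succ]
      · ring
      · rw [Finset.disjoint_left]
        intro x hx hx'
        obtain ⟨h, hh, rfl⟩ := Finset.mem_image.1 hx
        obtain ⟨h', hh', he⟩ := Finset.mem_image.1 hx'
        exact hst (cop_inj P (prodL L) hPW hposP t ht s hs h' (hHW hh') h (hHW hh) he).1.symm
    · have h1 : (α / 2) ^ (2 ^ (P :: L).length) = (α ^ 2 / 2 / 2) ^ (2 ^ L.length) := by
        have h2 : α ^ 2 / 2 / 2 = (α / 2) ^ 2 := by ring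
        rw [h2, ← pow_mul, List.length_cons, pow_succ 2, mul_comm]
      rw [h1]
      exact hYc
    · intro h hh y hy
      rcases Finset.mem_union.1 hh with hh | hh
      · obtain ⟨h', hh', rfl⟩ := Finset.mem_image.1 hh
        have h1 := (Finset.mem_filter.1 (hHY h' hh' y hy)).2.1
        rwa [← mul_assoc] at h1
      · obtain ⟨h', hh', rfl⟩ := Finset.mem_image.1 hh
        have h1 := (Finset.mem_filter.1 (hHY h' hh' y hy)).2.2
        rwa [← mul_assoc] at h1

end Pool.Agent.Helper89.DD
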