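import Pool.Agent.Helper89.DD.Box
import Pool.Agent.Helper89.DD.Iter

set_option autoImplicit false

/-! # Project DD: blocks of base elements -/

namespace Pool.Agent.Helper89.DD

open Finset

/-- initial segments -/
theorem init_seg (T : Finset ℕ) (k : ℕ) (hk : k ≤ T.card) :
    ∃ S ⊆ T, S.card = k ∧ ∀ x ∈ S, ∀ y ∈ T \ S, x < y := by
  induction k with
  | zero => exact ⟨∅, Finset.empty_subset T, rfl, fun x hx => absurd hx (Finset.notMem_empty x)⟩
  | succ k ih =>
    obtain ⟨S, hST, hSk, hS⟩ := ih (by omega)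
    have hne : (T \ S).Nonempty := by
      rw [← Finset.card_pos, Finset.card_sdiff_of_subset hST]
      omega
    have hm := Finset.min'_mem (T \ S) hne
    have hm2 := Finset.mem_sdiff.1 hm
    refine ⟨insert ((T \ S).min' hne) S, ?_, ?_, ?_⟩
    · intro x hx
      rcases Finset.mem_insert.1 hx with rfl | hx
      · exact hm2.1
      · exact hST hx
    · rw [Finset.card_insert_of_notMem hm2.2, hSk]
    · intro x hx y hy
      rw [Finset.mem_sdiff, Finset.mem_insert, not_or] at hy
      have hy2 : y ∈ T \ S := Finset.mem_sdiff.2 ⟨hy.1, hy.2.2⟩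
      rcases Finset.mem_insert.1 hx with rfl | hx
      · exact lt_of_le_of_ne (Finset.min'_le _ y hy2) (Ne.symm hy.2.1)
      · exact hS x hx y hy2

private theorem Blocks_empty (a : ℕ → ℕ) : box a ∅ = {1} := by
  ext x
  rw [mem_box, Finset.mem_singleton]
  constructor
  · rintro ⟨e, -, h⟩
    rw [h, Finset.prod_empty]
  · rintro rfl
    exact ⟨fun _ => 0, fun q hq => absurd hq (Finset.notMem_empty q), by rw [Finset.prod_empty]⟩

/-- `S` with `b * l` elements is a disjoint union of `b` blocks of `l` elements -/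
theorem blocks (a : ℕ → ℕ) (l : ℕ) : ∀ (b : ℕ) (S : Finset ℕ), IsBase S → S.card = b * l →
    ∃ L : List (Finset ℕ), L.length = b ∧ L.Pairwise Cop ∧ prodL L = box a S ∧
      ∀ P ∈ L, ∃ S' ⊆ S, S'.card = l ∧ P = box a S' := by
  intro b
  induction b with
  | zero =>
    intro S _ hc
    rw [Nat.zero_mul, Finset.card_eq_zero] at hc
    subst hc
    exact ⟨[], rfl, List.Pairwise.nil, (Blocks_empty a).symm, by simp⟩
  | succ b ih =>
    intro S hS hc
    rw [Nat.succ_mul] at hc
    obtain ⟨S1, hS1, hc1⟩ := Finset.exists_subset_card_eq (s := S) (n := l) (by omega)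
    have hc2 : (S \ S1).card = b * l := by
      rw [Finset.card_sdiff_of_subset hS1]
      omega
    obtain ⟨L, hL, hLp, hLb, hLm⟩ := ih (S \ S1) (IsBase_mono hS Finset.sdiff_subset) hc2
    refine ⟨box a S1 :: L, by rw [List.length_cons, hL], ?_, ?_, ?_⟩
    · rw [List.pairwise_cons]
      refine ⟨fun Q hQ => ?_, hLp⟩
      obtain ⟨S', hS', -, rfl⟩ := hLm Q hQ
      refine box_cop a S1 S' (IsBase_mono hS ?_) ?_
      · exact Finset.union_subset hS1 (hS'.trans Finset.sdiff_subset)
      · exact Finset.disjoint_of_subset_right hS' Finset.disjoint_sdiff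
    · rw [prodL, hLb, ← box_union a S1 (S \ S1) Finset.disjoint_sdiff,
        Finset.union_sdiff_of_subset hS1]
    · intro P hP
      rcases List.mem_cons.1 hP with rfl | hP
      · exact ⟨S1, hS1, hc1, rfl⟩
      · obtain ⟨S', hS', hc', h⟩ := hLm P hP
        exact ⟨S', hS'.trans Finset.sdiff_subset, hc', h⟩

end Pool.Agent.Helper89.DD
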