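import Pool.Agent.Helper89.DD.Defs

set_option autoImplicit false

/-! # Project DD: elementary properties of boxes (proofs by helper71 and helper20) -/

namespace Pool.Agent.Helper89.DD

open Finset

theorem mem_box (a : ℕ → ℕ) (S : Finset ℕ) (x : ℕ) :
    x ∈ box a S ↔ ∃ e : ℕ → ℕ, (∀ q ∈ S, e q ≤ a q) ∧ x = ∏ q ∈ S, q ^ e q := by
  unfold box
  rw [Finset.mem_image]
  constructor
  · rintro ⟨e, he, rfl⟩
    rw [Fintype.mem_piFinset] at he
    refine ⟨fun q => if h : q ∈ S then e ⟨q, h⟩ else 0, ?_, ?_⟩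
    · intro q hq
      simp only [hq, dif_pos]
      have := he ⟨q, hq⟩
      rw [Finset.mem_range] at this
      exact Nat.lt_succ_iff.mp this
    · rw [← Finset.prod_coe_sort S (fun q => q ^ (if h : q ∈ S then e ⟨q, h⟩ else 0))]
      refine Finset.prod_congr rfl fun q _ => ?_
      simp only [q.2, dif_pos]
  · rintro ⟨e, he, rfl⟩
    refine ⟨fun q => e q, ?_, ?_⟩
    · rw [Fintype.mem_piFinset]
      intro q
      rw [Finset.mem_range]
      have := he q q.2
      omega
    · exact Finset.prod_coe_sort S (fun q => q ^ e q)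

theorem one_mem_box (a : ℕ → ℕ) (S : Finset ℕ) : 1 ∈ box a S := by
  rw [mem_box]
  exact ⟨fun _ => 0, fun _ _ => Nat.zero_le _, by simp⟩

theorem box_pos (a : ℕ → ℕ) (S : Finset ℕ) (hS : ∀ q ∈ S, 0 < q) : ∀ x ∈ box a S, 0 < x := by
  intro x hx
  rw [mem_box] at hx
  obtain ⟨e, _, rfl⟩ := hx
  exact Finset.prod_pos fun q hq => pow_pos (hS q hq) _

theorem IsBase_mono {J S : Finset ℕ} (hJ : IsBase J) (h : S ⊆ J) : IsBase S :=
  ⟨fun q hq => hJ.1 q (h hq), fun q hq q' hq' hne => hJ.2 q (h hq) q' (h hq') hne⟩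

/-- elements of the box are at most `y ^ (A0 * |S|)` -/
theorem box_le (a : ℕ → ℕ) (S : Finset ℕ) (y A0 : ℕ) (hy : 1 ≤ y) (hS : ∀ q ∈ S, q ≤ y)
    (ha : ∀ q ∈ S, a q ≤ A0) : ∀ x ∈ box a S, x ≤ y ^ (A0 * S.card) := by
  intro x hx
  rw [mem_box] at hx
  obtain ⟨e, he, rfl⟩ := hx
  calc ∏ q ∈ S, q ^ e q ≤ ∏ _q ∈ S, y ^ A0 := by
        refine Finset.prod_le_prod' fun q hq => ?_
        calc q ^ e q ≤ y ^ e q := Nat.pow_le_pow_left (hS q hq) _
          _ ≤ y ^ A0 := Nat.pow_le_pow_right hy ((he q hq).trans (ha q hq))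
    _ = y ^ (A0 * S.card) := by rw [Finset.prod_const, ← pow_mul]

private theorem BoxB_split {S : Finset ℕ} (e : S → ℕ) (q : S) :
    ∏ r : S, (r : ℕ) ^ e r = (q : ℕ) ^ e q * ∏ r ∈ Finset.univ.erase q, (r : ℕ) ^ e r :=
  (Finset.mul_prod_erase Finset.univ (fun r : S => (r : ℕ) ^ e r) (Finset.mem_univ q)).symm

private theorem BoxB_le {S : Finset ℕ} (hS : IsBase S) {e e' : S → ℕ}
    (h : ∏ r : S, (r : ℕ) ^ e r = ∏ r : S, (r : ℕ) ^ e' r) (q : S) : e q ≤ e' q := by
  have hcop : Nat.Coprime ((q : ℕ) ^ e q) (∏ r ∈ Finset.univ.erase q, (r : ℕ) ^ e' r) := by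
    apply Nat.Coprime.prod_right
    intro r hr
    apply Nat.Coprime.pow
    refine hS.2 _ q.2 _ r.2 ?_
    intro h0
    exact (Finset.mem_erase.1 hr).1 (Subtype.ext h0.symm)
  have h1 : (q : ℕ) ^ e q ∣ (q : ℕ) ^ e' q := by
    apply Nat.Coprime.dvd_of_dvd_mul_right hcop
    rw [← BoxB_split e' q, ← h, BoxB_split e q]
    exact Dvd.intro _ rfl
  exact (Nat.pow_dvd_pow_iff_le_right (hS.1 _ q.2)).1 h1

/-- unique factorization over a base -/
theorem box_card (a : ℕ → ℕ) (S : Finset ℕ) (hS : IsBase S) :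
    (box a S).card = ∏ q ∈ S, (a q + 1) := by
  rw [box, Finset.card_image_of_injOn, Fintype.card_piFinset]
  · simp only [Finset.card_range]
    exact Finset.prod_coe_sort S (fun q => a q + 1)
  · intro e _ e' _ h
    funext q
    exact le_antisymm (BoxB_le hS h q) (BoxB_le hS h.symm q)

theorem box_cop (a : ℕ → ℕ) (S T : Finset ℕ) (h : IsBase (S ∪ T)) (hST : Disjoint S T) :
    Cop (box a S) (box a T) := by
  intro s hs z hz
  obtain ⟨e, -, rfl⟩ := (mem_box a S s).1 hs
  obtain ⟨e', -, rfl⟩ := (mem_box a T z).1 hz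
  apply Nat.Coprime.prod_left
  intro q hq
  apply Nat.Coprime.prod_right
  intro q' hq'
  apply Nat.Coprime.pow
  refine h.2 _ (Finset.mem_union_left _ hq) _ (Finset.mem_union_right _ hq') ?_
  intro h0
  exact Finset.disjoint_left.1 hST hq (h0 ▸ hq')

/-- the box over a disjoint union -/
theorem box_union (a : ℕ → ℕ) (S T : Finset ℕ) (hST : Disjoint S T) :
    box a (S ∪ T) = Finset.image₂ (fun s t : ℕ => s * t) (box a S) (box a T) := by
  ext x
  rw [Finset.mem_image₂, mem_box]
  constructor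
  · rintro ⟨e, he, rfl⟩
    refine ⟨∏ q ∈ S, q ^ e q, ?_, ∏ q ∈ T, q ^ e q, ?_, ?_⟩
    · exact (mem_box a S _).2 ⟨e, fun q hq => he q (Finset.mem_union_left _ hq), rfl⟩
    · exact (mem_box a T _).2 ⟨e, fun q hq => he q (Finset.mem_union_right _ hq), rfl⟩
    · exact (Finset.prod_union hST).symm
  · rintro ⟨s, hs, t, ht, rfl⟩
    obtain ⟨e, he, rfl⟩ := (mem_box a S s).1 hs
    obtain ⟨e', he', rfl⟩ := (mem_box a T t).1 ht
    refine ⟨fun q => if q ∈ S then e q else e' q, ?_, ?_⟩
    · intro q hq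
      by_cases hqS : q ∈ S
      · simp only [hqS, if_true]
        exact he q hqS
      · simp only [hqS, if_false]
        exact he' q ((Finset.mem_union.1 hq).resolve_left hqS)
    · rw [Finset.prod_union hST]
      congr 1
      · refine Finset.prod_congr rfl fun q hq => ?_
        simp only [hq, if_true]
      · refine Finset.prod_congr rfl fun q hq => ?_
        have hqS : q ∉ S := fun h0 => Finset.disjoint_left.1 hST h0 hq
        simp only [hqS, if_false]

/-- the positive divisors of `n` are the box over its prime factors -/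
theorem divisors_eq_box (n : ℕ) (hn : n ≠ 0) : n.divisors = box n.factorization n.primeFactors := by
  ext d
  rw [Nat.mem_divisors, mem_box]
  constructor
  · rintro ⟨hd, -⟩
    have hd0 : d ≠ 0 := fun h0 => hn (Nat.eq_zero_of_zero_dvd (h0 ▸ hd))
    refine ⟨d.factorization, fun q _ => (Nat.factorization_le_iff_dvd hd0 hn).2 hd q, ?_⟩
    have h1 := Nat.prod_factorization_pow_eq_self hd0
    rw [Finsupp.prod_of_support_subset (s := n.primeFactors)] at h1
    · exact h1.symm
    · rw [Nat.support_factorization]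
      exact Nat.primeFactors_mono hd hn
    · intro i _
      exact pow_zero i
  · rintro ⟨e, he, rfl⟩
    refine ⟨?_, hn⟩
    have h1 : ∏ q ∈ n.primeFactors, q ^ n.factorization q = n := by
      have h2 := Nat.prod_factorization_pow_eq_self hn
      rw [Finsupp.prod, Nat.support_factorization] at h2
      exact h2
    calc ∏ q ∈ n.primeFactors, q ^ e q ∣ ∏ q ∈ n.primeFactors, q ^ n.factorization q :=
          Finset.prod_dvd_prod_of_dvd _ _ fun q hq => pow_dvd_pow q (he q hq)
      _ = n := h1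

end Pool.Agent.Helper89.DD
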