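import Pool.Agent.Helper89.DD.Defs

set_option autoImplicit false

/-! # Project DD: elementary properties of boxes, first half -/

namespace Pool.Agent.Helper89.DD.A

open Finset

theorem mem_box (a : ℕ → ℕ) (S : Finset ℕ) (x : ℕ) :
    x ∈ box a S ↔ ∃ e : ℕ → ℕ, (∀ q ∈ S, e q ≤ a q) ∧ x = ∏ q ∈ S, q ^ e q := by
  unfold box
  rw [Finset.mem_image]
  constructor
  · rintro ⟨e, he, rfl⟩
    rw [Fintype.mem_piFinset] at he
    refine ⟨fun q => if h : q ∈ S then e ⟨q, h⟩ else 0, ?_, ?_⟩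
    · intro q hq
      simp only [hq, dif_pos]
      have := he ⟨q, hq⟩
      rw [Finset.mem_range] at this
      exact Nat.lt_succ_iff.mp this
    · rw [← Finset.prod_coe_sort S (fun q => q ^ (if h : q ∈ S then e ⟨q, h⟩ else 0))]
      refine Finset.prod_congr rfl fun q _ => ?_
      simp only [q.2, dif_pos]
  · rintro ⟨e, he, rfl⟩
    refine ⟨fun q => e q, ?_, ?_⟩
    · rw [Fintype.mem_piFinset]
      intro q
      rw [Finset.mem_range]
      have := he q q.2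
      omega
    · exact Finset.prod_coe_sort S (fun q => q ^ e q)

theorem one_mem_box (a : ℕ → ℕ) (S : Finset ℕ) : 1 ∈ box a S := by
  rw [mem_box]
  exact ⟨fun _ => 0, fun _ _ => Nat.zero_le _, by simp⟩

theorem box_pos (a : ℕ → ℕ) (S : Finset ℕ) (hS : ∀ q ∈ S, 0 < q) : ∀ x ∈ box a S, 0 < x := by
  intro x hx
  rw [mem_box] at hx
  obtain ⟨e, _, rfl⟩ := hx
  exact Finset.prod_pos fun q hq => pow_pos (hS q hq) _

theorem IsBase_mono {J S : Finset ℕ} (hJ : IsBase J) (h : S ⊆ J) : IsBase S :=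
  ⟨fun q hq => hJ.1 q (h hq), fun q hq q' hq' hne => hJ.2 q (h hq) q' (h hq') hne⟩

/-- elements of the box are at most `y ^ (A0 * |S|)` -/
theorem box_le (a : ℕ → ℕ) (S : Finset ℕ) (y A0 : ℕ) (hy : 1 ≤ y) (hS : ∀ q ∈ S, q ≤ y)
    (ha : ∀ q ∈ S, a q ≤ A0) : ∀ x ∈ box a S, x ≤ y ^ (A0 * S.card) := by
  intro x hx
  rw [mem_box] at hx
  obtain ⟨e, he, rfl⟩ := hx
  calc ∏ q ∈ S, q ^ e q ≤ ∏ _q ∈ S, y ^ A0 := by
        refine Finset.prod_le_prod' fun q hq => ?_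
        calc q ^ e q ≤ y ^ e q := Nat.pow_le_pow_left (hS q hq) _
          _ ≤ y ^ A0 := Nat.pow_le_pow_right hy ((he q hq).trans (ha q hq))
    _ = y ^ (A0 * S.card) := by rw [Finset.prod_const, ← pow_mul]

end Pool.Agent.Helper89.DD.A
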