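import Pool.Agent.Helper24.MD.PropS

set_option autoImplicit false

/-! # Project DD, case C of Proposition S, no multiplier divisible by `p` -/

namespace Pool.Agent.Helper89.DD

open Finset Pool.Agent.Helper24.MD

theorem av3 {α β : Type*} (X : Finset α) (Y : Finset β) (hX : X.Nonempty)
    (hY : Y.Nonempty) (a : α → ℝ) (b : β → ℝ) (c : ℝ) :
    av X (fun x => av Y (fun y => a x + b y + c)) = av X a + av Y b + c := by
  have h1 : ∀ x, av Y (fun y => a x + b y + c) = a x + (av Y b + c) := by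
    intro x
    rw [av_add, av_add, av_const Y hY, av_const Y hY]
    ring
  simp only [h1]
  rw [av_add, av_const X hX]
  ring

/-- case C when no element of `G` is divisible by `p` -/
theorem caseC1 (ε lam K : ℝ) (hε : 0 < ε) (hlam : 0 ≤ lam) (hK : 0 ≤ K) (G : Finset ℕ)
    (hG : G.Nonempty) (W : Finset ℕ) (p j : ℕ) (hp : p.Prime)
    (hG1 : ∀ g ∈ G, ¬ p ∣ g) (X : Finset ℤ) (hX : X.Nonempty)
    (Y : Finset ℕ) (hY : Y.Nonempty)
    (hC : hh (rX (p ^ (j + 1))) X ≤ ε / 2 * hh (rY (p ^ (j + 1))) Y)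
    (IH : ∀ X' : Finset ℤ, X'.Nonempty → ∀ y ∈ Y,
      av G (fun g => dd g X' (cl (rY (p ^ (j + 1))) Y y)) ≤
        Bd ε lam K W X' (cl (rY (p ^ (j + 1))) Y y)) :
    av G (fun g => dd g X Y) ≤ Bd ε lam K W X Y := by
  set M := p ^ (j + 1) with hM
  have hX0 : 0 ≤ hh (rX M) X := hh_nonneg _ _ hX
  have hY0 : 0 ≤ hh (rY M) Y := hh_nonneg _ _ hY
  have hstep : ∀ g ∈ G, dd g X Y ≤ hh (rX M) X +
      av X (fun x => av Y (fun y => dd g (cl (rX M) X x) (cl (rY M) Y y))) := by
    intro g hg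
    have hc : Nat.Coprime g M := by
      rw [hM]
      exact Nat.Coprime.pow_right _ ((Nat.Prime.coprime_iff_not_dvd hp).2 (hG1 g hg)).symm
    exact dd_step_coprime g M hc X hX Y hY
  have h1 := av_mono G _ _ hstep
  rw [av_add, av_const G hG] at h1
  have hswap : av G (fun g => av X (fun x => av Y (fun y =>
      dd g (cl (rX M) X x) (cl (rY M) Y y)))) =
      av X (fun x => av Y (fun y => av G (fun g => dd g (cl (rX M) X x) (cl (rY M) Y y)))) := by
    rw [av_comm G X (fun g x => av Y (fun y => dd g (cl (rX M) X x) (cl (rY M) Y y)))]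
    congr 1
    funext x
    exact av_comm G Y (fun g y => dd g (cl (rX M) X x) (cl (rY M) Y y))
  have hIH : av X (fun x => av Y (fun y => av G (fun g =>
      dd g (cl (rX M) X x) (cl (rY M) Y y)))) ≤
      av X (fun x => av Y (fun y => ε * Real.log ((cl (rX M) X x).card : ℝ) +
        ε * Real.log ((cl (rY M) Y y).card : ℝ) +
          (lam * (rr Y : ℝ) + K * (qq W Y : ℝ)))) := by
    apply av_mono
    intro x hx
    apply av_mono
    intro y hy
    refine le_trans (IH (cl (rX M) X x) ⟨x, mem_cl_self _ _ _ hx⟩ y hy) ?_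
    unfold Bd
    have hsub : cl (rY M) Y y ⊆ Y := Finset.filter_subset _ _
    have hr : (rr (cl (rY M) Y y) : ℝ) ≤ (rr Y : ℝ) := by exact_mod_cast rr_mono hsub
    have hq : (qq W (cl (rY M) Y y) : ℝ) ≤ (qq W Y : ℝ) := by exact_mod_cast qq_mono W hsub
    have h3 := mul_le_mul_of_nonneg_left hr hlam
    have h4 := mul_le_mul_of_nonneg_left hq hK
    linarith
  rw [av3 X Y hX hY (fun x => ε * Real.log ((cl (rX M) X x).card : ℝ))
    (fun y => ε * Real.log ((cl (rY M) Y y).card : ℝ)), av_mul, av_mul, log_card_eq,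
    log_card_eq] at hIH
  rw [hswap] at h1
  unfold Bd
  have hεX : 0 ≤ ε * hh (rX M) X := mul_nonneg hε.le hX0
  have hεY : 0 ≤ ε * hh (rY M) Y := mul_nonneg hε.le hY0
  linarith

end Pool.Agent.Helper89.DD
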