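import Mathlib

set_option autoImplicit false

/-!
# Project DD (MP_120218): boxes and their products
-/

namespace Pool.Agent.Helper89.DD

open Finset

/-- all products `∏ q ∈ S, q ^ e q` with `0 ≤ e q ≤ a q` -/
def box (a : ℕ → ℕ) (S : Finset ℕ) : Finset ℕ :=
  (Fintype.piFinset (fun q : S => Finset.range (a q + 1))).image
    (fun e : S → ℕ => ∏ q : S, (q : ℕ) ^ e q)

/-- all elements of `P` are prime to all elements of `Z` -/
def Cop (P Z : Finset ℕ) : Prop := ∀ s ∈ P, ∀ z ∈ Z, Nat.Coprime s z

/-- the set of products of one element from each member of `L` -/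
def prodL : List (Finset ℕ) → Finset ℕ
  | [] => {1}
  | P :: L => Finset.image₂ (fun s t : ℕ => s * t) P (prodL L)

/-- a base: pairwise coprime integers at least 2 -/
def IsBase (J : Finset ℕ) : Prop :=
  (∀ q ∈ J, 2 ≤ q) ∧ ∀ q ∈ J, ∀ q' ∈ J, q ≠ q' → Nat.Coprime q q'

/-- the product of all differences of different elements of `H` -/
def diffs (H : Finset ℕ) : ℕ := ∏ x ∈ H.offDiag, ((x.1 : ℤ) - (x.2 : ℤ)).natAbs

end Pool.Agent.Helper89.DD
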