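import Pool.Agent.Helper89.DD.Blocks
import Pool.Agent.Helper89.DD.Bad

set_option autoImplicit false

/-! # Project DD: the peeling theorem -/

namespace Pool.Agent.Helper89.DD

open Finset

/-- A dense subset `A` of a box contains many dilates `y H` of a set `H` with `2 ^ b` elements,
where `H` and the `y` are composed of different elements of the base, and few elements of the base
divide differences of elements of `H`. Take `S` = the smallest `b * l` elements of `J` with
exponent at most `A0`, `y = max S`. -/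
theorem peel (J : Finset ℕ) (hJ : IsBase J) (a : ℕ → ℕ) (ha : ∀ q ∈ J, 1 ≤ a q) (A0 b l : ℕ)
    (hA0 : 1 ≤ A0) (hbl : 1 ≤ b * l) (hc : b * l + (J.filter (fun q => A0 < a q)).card ≤ J.card)
    (A : Finset ℕ) (hA : A ⊆ box a J) (α : ℝ) (hα : 0 < α) (hα1 : α ≤ 1)
    (hl : (2 / α) ^ (2 ^ b) ≤ (2 : ℝ) ^ l) (hd : α * ((box a J).card : ℝ) ≤ (A.card : ℝ)) :
    ∃ S ⊆ J, ∃ H ⊆ box a S, H.card = 2 ^ b ∧ ∃ Y ⊆ box a (J \ S),
      (∀ h ∈ H, ∀ y ∈ Y, h * y ∈ A) ∧
      2 * (α / 2) ^ (2 ^ b) * ((box a J).card : ℝ) ≤ (Y.card : ℝ) * ((A0 : ℝ) + 1) ^ (b * l) ∧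
      ∃ W ⊆ J \ S, W.card ≤ (J.filter (fun q => A0 < a q)).card + A0 * (b * l) * 4 ^ b ∧
        ∀ q ∈ J \ S, q ∉ W → ¬ q ∣ diffs H := by
  classical
  obtain ⟨T, hT⟩ : ∃ T, T = J.filter (fun q => a q ≤ A0) := ⟨_, rfl⟩
  have hTJ : T ⊆ J := by
    rw [hT]
    exact Finset.filter_subset _ _
  have hTc : b * l ≤ T.card := by
    have h1 := Finset.card_filter_add_card_filter_not (s := J) (fun q => a q ≤ A0)
    have h2 : J.filter (fun q => ¬ a q ≤ A0) = J.filter (fun q => A0 < a q) := by
      apply Finset.filter_congr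
      intro q _
      exact not_le
    rw [h2, ← hT] at h1
    omega
  obtain ⟨S, hST, hSc, hSi⟩ := init_seg T (b * l) hTc
  have hSJ : S ⊆ J := hST.trans hTJ
  have hSb : IsBase S := IsBase_mono hJ hSJ
  have hpos : ∀ U : Finset ℕ, U ⊆ J → ∀ q ∈ U, 0 < q := fun U hU q hq =>
    lt_of_lt_of_le (by norm_num) (hJ.1 q (hU hq))
  obtain ⟨L, hLl, hLp, hLS, hLb⟩ := blocks a l b S hSb hSc
  have hU : S ∪ (J \ S) = J := Finset.union_sdiff_of_subset hSJ
  have hdisj : Disjoint S (J \ S) := Finset.disjoint_sdiff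
  have hcS : (box a S).card = ∏ q ∈ S, (a q + 1) := box_card a S hSb
  have hZb : IsBase (J \ S) := IsBase_mono hJ Finset.sdiff_subset
  have hcZ : (box a (J \ S)).card = ∏ q ∈ J \ S, (a q + 1) := box_card a (J \ S) hZb
  have hcJ : (box a J).card = (box a S).card * (box a (J \ S)).card := by
    rw [box_card a J hJ, hcS, hcZ, mul_comm]
    exact (Finset.prod_sdiff hSJ).symm
  have hcJR : ((box a J).card : ℝ) = ((box a S).card : ℝ) * ((box a (J \ S)).card : ℝ) := by
    rw [hcJ]
    push_cast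
    ring
  obtain ⟨H, hHS, hHc, Y, hYZ, hYc, hHY⟩ := iter L (box a (J \ S)) A α
    (by
      intro P hP s hs
      obtain ⟨S', hS', -, rfl⟩ := hLb P hP
      exact box_pos a S' (hpos S' (hS'.trans hSJ)) s hs)
    hLp
    (by
      intro P hP
      obtain ⟨S', hS', -, rfl⟩ := hLb P hP
      refine box_cop a S' (J \ S) (IsBase_mono hJ ?_) ?_
      · exact Finset.union_subset (hS'.trans hSJ) Finset.sdiff_subset
      · exact Finset.disjoint_of_subset_left hS' hdisj)
    (box_pos a (J \ S) (hpos _ Finset.sdiff_subset))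
    ⟨1, one_mem_box a _⟩
    (by
      intro P hP
      obtain ⟨S', hS', -, rfl⟩ := hLb P hP
      exact ⟨1, one_mem_box a _⟩)
    hα hα1
    (by
      intro P hP
      obtain ⟨S', hS', hS'c, rfl⟩ := hLb P hP
      rw [hLl]
      refine hl.trans ?_
      rw [box_card a S' (IsBase_mono hJ (hS'.trans hSJ)), ← hS'c]
      have h1 : 2 ^ S'.card ≤ ∏ q ∈ S', (a q + 1) := by
        rw [← Finset.prod_const]
        refine Finset.prod_le_prod' fun q hq => ?_
        have h2 := ha q (hSJ (hS' hq))
        omega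
      exact_mod_cast h1)
    (by
      intro x hx
      have h1 := hA hx
      rw [← hU, box_union a S (J \ S) hdisj, Finset.mem_image₂] at h1
      obtain ⟨s, hs, z, hz, h2⟩ := h1
      exact ⟨s, by rw [hLS]; exact hs, z, hz, h2⟩)
    (by
      rw [hLS, mul_assoc, ← hcJR]
      exact hd)
  rw [hLl] at hHc hYc
  rw [hLS] at hHS
  refine ⟨S, hSJ, H, hHS, hHc, Y, hYZ, hHY, ?_, ?_⟩
  · have h1 : ((box a S).card : ℝ) ≤ ((A0 : ℝ) + 1) ^ (b * l) := by
      have h2 : (box a S).card ≤ (A0 + 1) ^ (b * l) := by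
        rw [hcS, ← hSc, ← Finset.prod_const]
        refine Finset.prod_le_prod' fun q hq => ?_
        have h3 := hST hq
        rw [hT, Finset.mem_filter] at h3
        omega
      exact_mod_cast h2
    calc 2 * (α / 2) ^ (2 ^ b) * ((box a J).card : ℝ)
        = (2 * (α / 2) ^ (2 ^ b) * ((box a (J \ S)).card : ℝ)) * ((box a S).card : ℝ) := by
          rw [hcJR]
          ring
      _ ≤ (Y.card : ℝ) * ((box a S).card : ℝ) :=
          mul_le_mul_of_nonneg_right hYc (Nat.cast_nonneg _)
      _ ≤ (Y.card : ℝ) * ((A0 : ℝ) + 1) ^ (b * l) :=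
          mul_le_mul_of_nonneg_left h1 (Nat.cast_nonneg _)
  · refine ⟨J.filter (fun q => A0 < a q) ∪ (T \ S).filter (fun q => q ∣ diffs H), ?_, ?_, ?_⟩
    · intro q hq
      rw [Finset.mem_union, Finset.mem_filter, Finset.mem_filter, Finset.mem_sdiff] at hq
      rw [Finset.mem_sdiff]
      rcases hq with ⟨h1, h2⟩ | ⟨⟨h1, h2⟩, -⟩
      · refine ⟨h1, fun h3 => ?_⟩
        have h4 := hST h3
        rw [hT, Finset.mem_filter] at h4
        omega
      · exact ⟨hTJ h1, h2⟩
    · refine (Finset.card_union_le _ _).trans (Nat.add_le_add_left ?_ _)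
      have hSne : S.Nonempty := by
        rw [← Finset.card_pos, hSc]
        exact hbl
      have hy2 : 2 ≤ S.max' hSne := hJ.1 _ (hSJ (S.max'_mem hSne))
      refine base_card_le _ (IsBase_mono hJ ?_) (diffs H) (S.max' hSne) _ (diffs_pos H) hy2
        ?_ ?_ ?_
      · exact (Finset.filter_subset _ _).trans (Finset.sdiff_subset.trans hTJ)
      · intro q hq
        rw [Finset.mem_filter] at hq
        exact (hSi _ (S.max'_mem hSne) q hq.1).le
      · intro q hq
        rw [Finset.mem_filter] at hq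
        exact hq.2
      · have h1 : ∀ h ∈ H, h ≤ (S.max' hSne) ^ (A0 * (b * l)) := by
          intro h hh
          have h2 := box_le a S (S.max' hSne) A0 (by omega) (fun q hq => S.le_max' q hq)
            (fun q hq => by
              have h3 := hST hq
              rw [hT, Finset.mem_filter] at h3
              exact h3.2) h (hHS hh)
          rwa [hSc] at h2
        have h2 := diffs_le H _ h1 (Nat.one_le_pow _ _ (by omega))
        refine h2.trans (le_of_eq ?_)
        rw [hHc, ← pow_mul, ← pow_mul]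
        congr 1
        have h3 : (2 : ℕ) ^ (b * 2) = 4 ^ b := by
          rw [mul_comm b 2, pow_mul]
          norm_num
        rw [h3]
    · intro q hq hqW hqd
      rw [Finset.mem_sdiff] at hq
      rw [Finset.mem_union, not_or, Finset.mem_filter, Finset.mem_filter, Finset.mem_sdiff] at hqW
      obtain ⟨h1, h2⟩ := hqW
      apply h2
      refine ⟨⟨?_, hq.2⟩, hqd⟩
      rw [hT, Finset.mem_filter]
      refine ⟨hq.1, ?_⟩
      by_contra h3
      exact h1 ⟨hq.1, not_le.1 h3⟩

end Pool.Agent.Helper89.DD
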