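import Pool.Agent.Helper89.DD.Sum
import Pool.Agent.Helper89.DD.Peel
import Pool.Agent.Helper89.DD.Arith

set_option autoImplicit false

/-! # Project DD: dense sets of divisors -/

namespace Pool.Agent.Helper89.DD

open Finset

/-- the set of `k`-fold sums -/
def kS (k : ℕ) (A : Finset ℕ) : Finset ℕ :=
  (Fintype.piFinset (fun _ : Fin k => A)).image (fun f : Fin k → ℕ => ∑ i, f i)

theorem kS_pos (k : ℕ) (A : Finset ℕ) (hA : A.Nonempty) : 1 ≤ (kS k A).card := by
  unfold kS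
  exact Finset.card_pos.2 ((Fintype.piFinset_nonempty.2 fun _ => hA).image _)

theorem isBase_primes (T : Finset ℕ) (hT : ∀ p ∈ T, p.Prime) : IsBase T :=
  ⟨fun q hq => (hT q hq).two_le, fun q hq q' hq' hne => (Nat.coprime_primes (hT q hq) (hT q' hq')).2 hne⟩

/-- `(B + 1) ^ |S| ≤ |box|` for a subset `S` with exponents at least `B` -/
theorem pow_le_box (a : ℕ → ℕ) (T : Finset ℕ) (hT : IsBase T) (S : Finset ℕ) (hS : S ⊆ T) (B : ℕ)
    (h : ∀ q ∈ S, B ≤ a q) : (B + 1) ^ S.card ≤ (box a T).card := by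
  rw [box_card a T hT]
  calc (B + 1) ^ S.card = ∏ _q ∈ S, (B + 1) := by rw [Finset.prod_const]
    _ ≤ ∏ q ∈ S, (a q + 1) := Finset.prod_le_prod' fun q hq => Nat.succ_le_succ (h q hq)
    _ ≤ ∏ q ∈ T, (a q + 1) :=
        Finset.prod_le_prod_of_subset_of_one_le' hS fun q _ _ => Nat.succ_le_succ (Nat.zero_le _)

/-- the main estimate, for boxes over primes -/
theorem dense_log (k : ℕ) (hk : 1 ≤ k) (e : ℝ) (he : 0 < e) (he1 : e ≤ 1) : ∃ c : ℝ, 0 < c ∧
    c ≤ 1 / 2 ∧ ∃ L0 : ℝ, 0 < L0 ∧ ∀ (T : Finset ℕ), (∀ p ∈ T, p.Prime) → ∀ a : ℕ → ℕ,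
      (∀ q ∈ T, 1 ≤ a q) → ∀ A ⊆ box a T, A.Nonempty →
      (1 - c) * Real.log ((box a T).card : ℝ) ≤ Real.log (A.card : ℝ) →
      L0 ≤ Real.log (A.card : ℝ) →
      ((k : ℝ) - e) * Real.log (A.card : ℝ) ≤ Real.log ((kS k A).card : ℝ) := by
  classical
  obtain ⟨κ, hκd⟩ : ∃ κ : ℝ, κ = (k : ℝ) := ⟨_, rfl⟩
  have hκ : (1 : ℝ) ≤ κ := by rw [hκd]; exact_mod_cast hk
  have hκ0 : (0 : ℝ) < κ := by linarith
  obtain ⟨ε1, hε1d⟩ : ∃ ε1 : ℝ, ε1 = e / (4 * κ * (κ + 1)) := ⟨_, rfl⟩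
  have hε10 : 0 < ε1 := by rw [hε1d]; positivity
  have hε11 : ε1 ≤ 1 := by
    rw [hε1d, div_le_one (by positivity)]
    nlinarith
  obtain ⟨lam, hlamd⟩ : ∃ lam : ℝ, lam = e / (12 * κ) := ⟨_, rfl⟩
  have hlam0 : 0 < lam := by rw [hlamd]; positivity
  obtain ⟨m, K, hK, hsum⟩ := sum_bound ε1 lam hε10 hε11 hlam0
  obtain ⟨w, hwd⟩ : ∃ w : ℝ, w = e / (4 * κ * (K + 1)) := ⟨_, rfl⟩
  have hw0 : 0 < w := by rw [hwd]; positivity
  have hw1 : w ≤ 1 := by
    rw [hwd, div_le_one (by positivity)]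
    nlinarith [mul_nonneg hκ0.le hK]
  -- identities
  have e1 : κ * ((κ + 1) * ε1) = e / 4 := by
    rw [hε1d]; field_simp
  have e2 : κ * (lam * 3) = e / 4 := by
    rw [hlamd]; field_simp; ring
  have e3 : κ * w * (K + 1) = e / 4 := by
    rw [hwd]; field_simp
  have e4 : κ * w ≤ e / 4 := by
    have : 0 ≤ κ * w * K := by positivity
    nlinarith
  have e5 : κ * (K * w) ≤ e / 4 := by
    have : 0 ≤ κ * w := by positivity
    nlinarith
  obtain ⟨b, hb1, hbm⟩ : ∃ b : ℕ, 1 ≤ b ∧ m ≤ 2 ^ b :=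
    ⟨m + 1, by omega, (Nat.lt_two_pow_self (n := m)).le.trans
      (Nat.pow_le_pow_right (by norm_num) (by omega))⟩
  obtain ⟨A0, hA01, hA0w⟩ : ∃ A0 : ℕ, 1 ≤ A0 ∧ 8 / w ≤ Real.log ((A0 : ℝ) + 2) := by
    refine ⟨max 1 ⌈Real.exp (8 / w)⌉₊, le_max_left _ _, ?_⟩
    rw [Real.le_log_iff_exp_le (by positivity)]
    have h1 := Nat.le_ceil (Real.exp (8 / w))
    have h2 : ((⌈Real.exp (8 / w)⌉₊ : ℕ) : ℝ) ≤ ((max 1 ⌈Real.exp (8 / w)⌉₊ : ℕ) : ℝ) := by
      exact_mod_cast le_max_right _ _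
    linarith
  obtain ⟨c, hc, hc2, L0, hL0, hpar⟩ := params A0 b hb1 w hw0 hw1
  refine ⟨c, hc, hc2, L0, hL0, ?_⟩
  intro T hT a ha A hA hAne hdense hL
  have hbase := isBase_primes T hT
  obtain ⟨L, hLd⟩ : ∃ L : ℝ, L = Real.log (A.card : ℝ) := ⟨_, rfl⟩
  have hN1 : (1 : ℝ) ≤ (A.card : ℝ) := by exact_mod_cast Finset.card_pos.2 hAne
  have hNd : (A.card : ℝ) ≤ ((box a T).card : ℝ) := by exact_mod_cast Finset.card_le_card hA
  have hd1 : (1 : ℝ) ≤ ((box a T).card : ℝ) := hN1.trans hNd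
  have hld0 : 0 ≤ Real.log ((box a T).card : ℝ) := Real.log_nonneg hd1
  have hL1 : 0 < L := by rw [hLd]; linarith
  have hld2 : Real.log ((box a T).card : ℝ) ≤ 2 * L := by
    rw [hLd]
    nlinarith
  -- number of primes
  have hR : (T.card : ℝ) ≤ 3 * L := by
    have h1 := pow_le_box a T hbase T (Finset.Subset.refl _) 1 ha
    have h2 : ((2 : ℝ)) ^ T.card ≤ ((box a T).card : ℝ) := by exact_mod_cast h1
    have h3 := Real.log_le_log (by positivity) h2
    rw [Real.log_pow] at h3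
    have h4 := Real.log_two_gt_d9
    have h5 : (0 : ℝ) ≤ (T.card : ℝ) := Nat.cast_nonneg _
    nlinarith
  rw [← hLd, ← hκd]
  rw [← hLd] at hL hdense
  by_cases hcase : (T.card : ℝ) ≤ w * L
  · -- few primes
    have h1 := hsum k a T hT A hA hAne {1} ⟨1, Finset.mem_singleton_self 1⟩ T (by
      intro p hp h hh
      rw [Finset.mem_singleton] at hh
      subst hh
      exact fun hd => (hT p hp).one_lt.ne' (Nat.dvd_one.1 hd)) (Or.inl (Finset.Subset.refl _)) A (by
      intro h hh y hy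
      rw [Finset.mem_singleton] at hh
      subst hh
      rwa [one_mul])
    rw [← hLd, ← hκd] at h1
    refine le_trans ?_ h1
    have h2 : lam * (T.card : ℝ) ≤ lam * (3 * L) := mul_le_mul_of_nonneg_left hR hlam0.le
    have h3 : K * (T.card : ℝ) ≤ K * (w * L) := mul_le_mul_of_nonneg_left hcase hK
    have h4 : κ * ((κ + 1) * ε1 * L + (lam * (T.card : ℝ) + K * (T.card : ℝ))) ≤
        κ * ((κ + 1) * ε1 * L + (lam * (3 * L) + K * (w * L))) := by
      apply mul_le_mul_of_nonneg_left _ hκ0.le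
      linarith
    have h5 : κ * ((κ + 1) * ε1 * L + (lam * (3 * L) + K * (w * L))) =
        (κ * ((κ + 1) * ε1)) * L + (κ * (lam * 3)) * L + (κ * (K * w)) * L := by ring
    have h6 : κ * (K * w) * L ≤ e / 4 * L := mul_le_mul_of_nonneg_right e5 hL1.le
    rw [e1, e2] at h5
    nlinarith
  · -- many primes
    push Not at hcase
    have hbig : (((T.filter (fun q => A0 < a q)).card : ℕ) : ℝ) ≤ w * L / 4 := by
      refine big_le A0 _ ((box a T).card : ℝ) L w hw0 ?_ hld2 hA0w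
      have h1 := pow_le_box a T hbase (T.filter (fun q => A0 < a q)) (Finset.filter_subset _ _)
        (A0 + 1) (fun q hq => (Finset.mem_filter.1 hq).2)
      have h2 : (((A0 + 1 + 1) ^ (T.filter (fun q => A0 < a q)).card : ℕ) : ℝ) ≤
          ((box a T).card : ℝ) := by exact_mod_cast h1
      push_cast at h2
      have h3 : ((A0 : ℝ) + 1 + 1) = (A0 : ℝ) + 2 := by ring
      rwa [h3] at h2
    obtain ⟨l, hl1, hbl, hA0l, hpow, hY⟩ := hpar (A.card : ℝ) ((box a T).card : ℝ) hN1 hNd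
      (by rw [← hLd]; exact hdense) (by rw [← hLd]; exact hL)
    rw [← hLd] at hbl hA0l hY
    have hα : 0 < (A.card : ℝ) / ((box a T).card : ℝ) := by positivity
    have hα1 : (A.card : ℝ) / ((box a T).card : ℝ) ≤ 1 := by
      rw [div_le_one (by linarith)]
      exact hNd
    obtain ⟨S, hST, H, hHS, hHc, Y, hYS, hHY, hYcard, W, hWS, hWc, hWd⟩ :=
      peel T hbase a ha A0 b l hA01 (Nat.mul_pos hb1 hl1) (by
        have h1 : ((b * l + (T.filter (fun q => A0 < a q)).card : ℕ) : ℝ) ≤ (T.card : ℝ) := by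
          push_cast at hbl ⊢
          have : 0 < w * L := by positivity
          linarith
        exact_mod_cast h1) A hA _ hα hα1 hpow (by
        rw [div_mul_cancel₀ _ (by linarith : ((box a T).card : ℝ) ≠ 0)])
    have hHne : H.Nonempty := by
      rw [← Finset.card_pos, hHc]
      positivity
    have hYpos : (0 : ℝ) < (Y.card : ℝ) := by
      have h1 : 0 < 2 * ((A.card : ℝ) / ((box a T).card : ℝ) / 2) ^ 2 ^ b *
          ((box a T).card : ℝ) := by positivity
      have h2 := lt_of_lt_of_le h1 hYcard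
      by_contra h3
      have h4 : (Y.card : ℝ) = 0 := le_antisymm (not_lt.1 h3) (Nat.cast_nonneg _)
      rw [h4, zero_mul] at h2
      exact lt_irrefl _ h2
    have hYne : Y.Nonempty := Finset.card_pos.1 (by exact_mod_cast hYpos)
    have hLY := hY (Y.card : ℝ) hYpos hYcard
    have hTS : ∀ p ∈ T \ S, p.Prime := fun p hp => hT p (Finset.mem_sdiff.1 hp).1
    have hSp : ∀ p ∈ S, p.Prime := fun p hp => hT p (hST hp)
    -- `|Y| ≤ |A|`
    have hYA : Real.log (Y.card : ℝ) ≤ L := by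
      rw [hLd]
      apply Real.log_le_log hYpos
      obtain ⟨h, hh⟩ := hHne
      have hh0 : 0 < h := box_pos a S (fun q hq => (hSp q hq).pos) h (hHS hh)
      have h1 : Y.card ≤ A.card := by
        apply Finset.card_le_card_of_injOn (fun y => h * y)
        · intro y hy
          exact hHY h hh y hy
        · intro y _ y' _ hyy
          exact Nat.eq_of_mul_eq_mul_left hh0 hyy
      exact_mod_cast h1
    have h1 := hsum k a (T \ S) hTS Y hYS hYne H hHne W (by
      intro p hp h hh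
      exact not_dvd_box a S hSp p (hTS p hp) (Finset.mem_sdiff.1 hp).2 h (hHS hh)) (Or.inr
      ⟨by rw [hHc]; exact hbm, fun p hp hpW => hWd p hp hpW⟩) A hHY
    rw [← hκd] at h1
    refine le_trans ?_ h1
    have hWr : (W.card : ℝ) ≤ w * L := by
      have h2 : ((W.card : ℕ) : ℝ) ≤ (((T.filter (fun q => A0 < a q)).card +
          A0 * (b * l) * 4 ^ b : ℕ) : ℝ) := by exact_mod_cast hWc
      push_cast at h2 hA0l
      have : 0 < w * L := by positivity
      linarith
    have hTSc : ((T \ S).card : ℝ) ≤ 3 * L := by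
      have : ((T \ S).card : ℝ) ≤ (T.card : ℝ) := by
        exact_mod_cast Finset.card_le_card Finset.sdiff_subset
      linarith
    have h2 : lam * ((T \ S).card : ℝ) ≤ lam * (3 * L) := mul_le_mul_of_nonneg_left hTSc hlam0.le
    have h3 : K * (W.card : ℝ) ≤ K * (w * L) := mul_le_mul_of_nonneg_left hWr hK
    have h7 : (κ + 1) * ε1 * Real.log (Y.card : ℝ) ≤ (κ + 1) * ε1 * L :=
      mul_le_mul_of_nonneg_left hYA (by positivity)
    have h4 : κ * ((κ + 1) * ε1 * Real.log (Y.card : ℝ) +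
        (lam * ((T \ S).card : ℝ) + K * (W.card : ℝ))) ≤
        κ * ((κ + 1) * ε1 * L + (lam * (3 * L) + K * (w * L))) := by
      apply mul_le_mul_of_nonneg_left _ hκ0.le
      linarith
    have h5 : κ * ((κ + 1) * ε1 * L + (lam * (3 * L) + K * (w * L))) =
        (κ * ((κ + 1) * ε1)) * L + (κ * (lam * 3)) * L + (κ * (K * w)) * L := by ring
    have h6 : κ * (K * w) * L ≤ e / 4 * L := mul_le_mul_of_nonneg_right e5 hL1.le
    have h8 : κ * ((1 - w) * L) ≤ κ * Real.log (Y.card : ℝ) :=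
      mul_le_mul_of_nonneg_left hLY hκ0.le
    have h9 : κ * w * L ≤ e / 4 * L := mul_le_mul_of_nonneg_right e4 hL1.le
    rw [e1, e2] at h5
    nlinarith

/-- dense sets of divisors have sums of maximal order -/
theorem dense (k : ℕ) (ε : ℝ) (hε : 0 < ε) : ∃ c : ℝ, 0 < c ∧ ∀ n : ℕ, 0 < n →
    ∀ A ⊆ n.divisors, ((n.divisors.card : ℕ) : ℝ) ^ (1 - c) ≤ (A.card : ℝ) →
      c * (A.card : ℝ) ^ ((k : ℝ) - ε) ≤ ((((Fintype.piFinset (fun _ : Fin k => A)).image
          (fun f : Fin k → ℕ => ∑ i, f i)).card : ℕ) : ℝ) := by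
  have hne : ∀ (c : ℝ) (n : ℕ), 0 < n → ∀ A ⊆ n.divisors,
      ((n.divisors.card : ℕ) : ℝ) ^ (1 - c) ≤ (A.card : ℝ) → A.Nonempty := by
    intro c n hn A _ h
    have h1 : (0 : ℝ) < ((n.divisors.card : ℕ) : ℝ) := by
      exact_mod_cast Finset.card_pos.2 ⟨1, Nat.one_mem_divisors.2 hn.ne'⟩
    have h2 : (0 : ℝ) < (A.card : ℝ) := lt_of_lt_of_le (Real.rpow_pos_of_pos h1 _) h
    exact Finset.card_pos.1 (by exact_mod_cast h2)
  rcases Nat.eq_zero_or_pos k with hk | hk
  · subst hk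
    refine ⟨1, one_pos, fun n hn A hA h => ?_⟩
    have hAne := hne 1 n hn A hA h
    have h1 : (1 : ℝ) ≤ ((kS 0 A).card : ℝ) := by exact_mod_cast kS_pos 0 A hAne
    refine le_trans ?_ h1
    have h2 : (1 : ℝ) ≤ (A.card : ℝ) := by exact_mod_cast Finset.card_pos.2 hAne
    rw [one_mul]
    apply Real.rpow_le_one_of_one_le_of_nonpos h2
    rw [Nat.cast_zero]
    linarith
  · obtain ⟨c, hc, hc2, L0, hL0, hmain⟩ := dense_log k hk (min ε 1) (lt_min hε one_pos)
      (min_le_right _ _)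
    refine ⟨min c (Real.exp (-((k : ℝ) * L0))), lt_min hc (Real.exp_pos _), ?_⟩
    intro n hn A hA h
    have hAne := hne _ n hn A hA h
    have hc' : min c (Real.exp (-((k : ℝ) * L0))) ≤ c := min_le_left _ _
    have hc'' : min c (Real.exp (-((k : ℝ) * L0))) ≤ Real.exp (-((k : ℝ) * L0)) := min_le_right _ _
    have hc0 : 0 < min c (Real.exp (-((k : ℝ) * L0))) := lt_min hc (Real.exp_pos _)
    generalize min c (Real.exp (-((k : ℝ) * L0))) = c' at *
    have hN1 : (1 : ℝ) ≤ (A.card : ℝ) := by exact_mod_cast Finset.card_pos.2 hAne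
    have hN0 : (0 : ℝ) < (A.card : ℝ) := by linarith
    have hd1 : (1 : ℝ) ≤ ((n.divisors.card : ℕ) : ℝ) :=
      hN1.trans (by exact_mod_cast Finset.card_le_card hA)
    have hd0 : (0 : ℝ) < ((n.divisors.card : ℕ) : ℝ) := by linarith
    have hlog : (1 - c') * Real.log ((n.divisors.card : ℕ) : ℝ) ≤ Real.log (A.card : ℝ) := by
      have h1 := Real.log_le_log (Real.rpow_pos_of_pos hd0 _) h
      rwa [Real.log_rpow hd0] at h1
    have hld0 : 0 ≤ Real.log ((n.divisors.card : ℕ) : ℝ) := Real.log_nonneg hd1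
    have hlN0 : 0 ≤ Real.log (A.card : ℝ) := Real.log_nonneg hN1
    change c' * (A.card : ℝ) ^ ((k : ℝ) - ε) ≤ ((kS k A).card : ℝ)
    have hk1 : (1 : ℝ) ≤ ((kS k A).card : ℝ) := by exact_mod_cast kS_pos k A hAne
    have hκ : (1 : ℝ) ≤ (k : ℝ) := by exact_mod_cast hk
    rw [Real.rpow_def_of_pos hN0]
    rcases lt_or_ge (Real.log (A.card : ℝ)) L0 with hsmall | hlarge
    · refine le_trans ?_ hk1
      have h1 : Real.log (A.card : ℝ) * ((k : ℝ) - ε) ≤ (k : ℝ) * L0 := by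
        have h2 : Real.log (A.card : ℝ) * ((k : ℝ) - ε) ≤ Real.log (A.card : ℝ) * (k : ℝ) :=
          mul_le_mul_of_nonneg_left (by linarith) hlN0
        have h3 : Real.log (A.card : ℝ) * (k : ℝ) ≤ L0 * (k : ℝ) :=
          mul_le_mul_of_nonneg_right hsmall.le (by linarith)
        linarith
      calc c' * Real.exp (Real.log (A.card : ℝ) * ((k : ℝ) - ε)) ≤
          Real.exp (-((k : ℝ) * L0)) * Real.exp ((k : ℝ) * L0) :=
            mul_le_mul hc'' (Real.exp_le_exp.2 h1) (Real.exp_pos _).le (Real.exp_pos _).le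
        _ = 1 := by rw [← Real.exp_add]; simp
    · have hbox := divisors_eq_box n hn.ne'
      have h1 := hmain n.primeFactors (fun p hp => Nat.prime_of_mem_primeFactors hp)
        n.factorization (fun q hq => by
          have := (Nat.prime_of_mem_primeFactors hq).factorization_pos_of_dvd hn.ne'
            (Nat.dvd_of_mem_primeFactors hq)
          exact this) A (by rw [← hbox]; exact hA) hAne (by
          rw [← hbox]
          refine le_trans ?_ hlog
          apply mul_le_mul_of_nonneg_right _ hld0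
          linarith) hlarge
      have h2 : c' * Real.exp (Real.log (A.card : ℝ) * ((k : ℝ) - ε)) ≤
          1 * Real.exp (((k : ℝ) - min ε 1) * Real.log (A.card : ℝ)) := by
        apply mul_le_mul (by linarith) _ (Real.exp_pos _).le (by norm_num)
        apply Real.exp_le_exp.2
        rw [mul_comm]
        apply mul_le_mul_of_nonneg_right _ hlN0
        have := min_le_left ε 1
        linarith
      rw [one_mul] at h2
      refine h2.trans ?_
      have h3 : (0 : ℝ) < ((kS k A).card : ℝ) := by linarith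
      rw [← Real.le_log_iff_exp_le h3]
      exact h1

end Pool.Agent.Helper89.DD
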