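import Pool.Agent.Helper89.DD.CaseC1

set_option autoImplicit false

/-! # Project DD: Proposition S with conditions only at non-constant primes -/

namespace Pool.Agent.Helper89.DD

open Finset Pool.Agent.Helper24.MD

/-- Proposition S for `ε ≤ 1`, with conditions only at the primes whose valuation is not constant
on `Y`, and many dilates only if there is a good prime -/
theorem propS2 (ε lam : ℝ) (hε : 0 < ε) (hε1 : ε ≤ 1) (hlam : 0 < lam) :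
    ∃ m : ℕ, ∃ K : ℝ, 0 ≤ K ∧
      ∀ G : Finset ℕ, G.Nonempty → ∀ W : Finset ℕ, ∀ Y : Finset ℕ, Y.Nonempty →
      (∀ y ∈ Y, 0 < y) →
      (∀ p : ℕ, p.Prime → NC Y p → ∀ g ∈ G, ¬ p ∣ g) →
      (∀ p : ℕ, p.Prime → NC Y p → p ∉ W → m ≤ G.card ∧ ∀ g ∈ G, ∀ g' ∈ G,
        ((g : ℕ) : ZMod p) = ((g' : ℕ) : ZMod p) → g = g') →
      ∀ X : Finset ℤ, X.Nonempty → av G (fun g => dd g X Y) ≤ Bd ε lam K W X Y := by
  classical
  -- constants
  obtain ⟨κ, hκ, hκ1, hκl⟩ : ∃ κ : ℝ, 0 < κ ∧ κ ≤ 1 / 2 ∧ 2 * κ ≤ lam := by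
    refine ⟨min (1 / 2) (lam / 2), by positivity, min_le_left _ _, ?_⟩
    have := min_le_right (1 / 2) (lam / 2)
    linarith
  obtain ⟨C4, hC4⟩ : ∃ C4 : ℝ, C4 = 2 * (Real.log (1 / κ) / ε) / ε := ⟨_, rfl⟩
  have hC40 : 0 ≤ C4 := by
    rw [hC4]
    have h1 : 0 ≤ Real.log (1 / κ) := by
      apply Real.log_nonneg
      rw [le_div_iff₀ hκ]
      linarith
    positivity
  obtain ⟨t0, ht0e⟩ : ∃ t0 : ℝ, t0 = Real.exp (-4 / ε ^ 2) := ⟨_, rfl⟩
  have ht0 : 0 < t0 := by rw [ht0e]; exact Real.exp_pos _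
  obtain ⟨δ, hδ, hδ1, hδt, hδl⟩ : ∃ δ : ℝ, 0 < δ ∧ δ ≤ 1 / 2 ∧ δ ≤ t0 / 2 ∧
      4 * δ ≤ lam * t0 / 4 := by
    refine ⟨min (1 / 2) (min (t0 / 2) (lam * t0 / 16)), by positivity, min_le_left _ _,
      (min_le_right _ _).trans (min_le_left _ _), ?_⟩
    have := (min_le_right (1 / 2) (min (t0 / 2) (lam * t0 / 16))).trans
      (min_le_right (t0 / 2) (lam * t0 / 16))
    linarith
  obtain ⟨r, hr⟩ : ∃ r : ℕ, Real.exp (C4 / δ) ≤ (r : ℝ) := ⟨⌈Real.exp (C4 / δ)⌉₊, Nat.le_ceil _⟩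
  obtain ⟨m2, hm2⟩ : ∃ m2 : ℕ, (r : ℝ) ^ 4 * Real.log r * (4 / (lam * t0)) ≤ (m2 : ℝ) :=
    ⟨⌈(r : ℝ) ^ 4 * Real.log r * (4 / (lam * t0))⌉₊, Nat.le_ceil _⟩
  refine ⟨m2, C4 / t0, by positivity, ?_⟩
  intro G hGne W
  have hGpos : (0 : ℝ) < (G.card : ℝ) := by exact_mod_cast Finset.card_pos.2 hGne
  have hK : 0 ≤ C4 / t0 := by positivity
  have hmE : m2 ≤ G.card → 4 * δ + (r : ℝ) ^ 4 * Real.log r / (G.card : ℝ) ≤ lam * (t0 / 2) := by
    intro hGm2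
    have h1 : (r : ℝ) ^ 4 * Real.log r * (4 / (lam * t0)) ≤ (G.card : ℝ) :=
      hm2.trans (by exact_mod_cast hGm2)
    have h2 : (r : ℝ) ^ 4 * Real.log r / (G.card : ℝ) ≤ lam * t0 / 4 := by
      rw [div_le_iff₀ hGpos]
      have h3 : (r : ℝ) ^ 4 * Real.log r = (lam * t0 / 4) *
          ((r : ℝ) ^ 4 * Real.log r * (4 / (lam * t0))) := by
        field_simp
      rw [h3]
      exact mul_le_mul_of_nonneg_left h1 (by positivity)
    linarith
  -- induction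
  suffices H : ∀ n : ℕ, ∀ Y : Finset ℕ, Y.card = n → Y.Nonempty → (∀ y ∈ Y, 0 < y) →
      (∀ p : ℕ, p.Prime → NC Y p → ∀ g ∈ G, ¬ p ∣ g) →
      (∀ p : ℕ, p.Prime → NC Y p → p ∉ W → m2 ≤ G.card ∧ ∀ g ∈ G, ∀ g' ∈ G,
        ((g : ℕ) : ZMod p) = ((g' : ℕ) : ZMod p) → g = g') →
      ∀ X : Finset ℤ, X.Nonempty →
        av G (fun g => dd g X Y) ≤ Bd ε lam (C4 / t0) W X Y from
    fun Y hY hpos h1 h2 X hX => H _ Y rfl hY hpos h1 h2 X hX
  intro n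
  induction n using Nat.strong_induction_on with
  | _ n ih =>
  intro Y hn hY hpos hGc hW X hX
  have IH : ∀ Y' : Finset ℕ, Y' ⊆ Y → Y'.card < Y.card → Y'.Nonempty →
      ∀ X' : Finset ℤ, X'.Nonempty →
        av G (fun g => dd g X' Y') ≤ Bd ε lam (C4 / t0) W X' Y' := by
    intro Y' hsub hlt hne X' hX'
    exact ih Y'.card (hn ▸ hlt) Y' rfl hne (fun y hy => hpos y (hsub hy))
      (fun p hp hnc => hGc p hp (NC_mono hsub hnc))
      (fun p hp hnc => hW p hp (NC_mono hsub hnc)) X' hX'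
  by_cases h2 : Y.card < 2
  · have h1 : Y.card = 1 := by
      have := Finset.card_pos.2 hY
      omega
    have h3 : av G (fun g => dd g X Y) = 0 := by
      unfold av
      rw [Finset.sum_eq_zero (fun g _ => dd_one g X Y h1)]
      simp
    rw [h3]
    exact Bd_nonneg ε lam _ hε.le hlam.le hK W X Y
  push Not at h2
  obtain ⟨p, j, hp, hdiv, hYp, hY0, hNC, -, hrr⟩ := exists_split Y hpos h2
  have hcard : (Y.filter (fun y => ¬ p ^ (j + 1) ∣ y)).card +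
      (Y.filter (fun y => p ^ (j + 1) ∣ y)).card = Y.card := by
    rw [add_comm]
    exact Finset.card_filter_add_card_filter_not _
  have hYp0 := Finset.card_pos.2 hYp
  have hY00 := Finset.card_pos.2 hY0
  have hnot : ¬ NC (Y.filter (fun y => ¬ p ^ (j + 1) ∣ y)) p := by
    apply not_NC_of_exact p j hp
    · intro z hz
      exact hpos z (Finset.mem_filter.1 hz).1
    · intro z hz
      exact hdiv z (Finset.mem_filter.1 hz).1
    · intro z hz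
      exact (Finset.mem_filter.1 hz).2
  -- case A
  by_cases hA : (1 - κ) * (Y.card : ℝ) ≤
      ((Y.filter (fun y => ¬ p ^ (j + 1) ∣ y)).card : ℝ)
  · exact caseA ε lam _ κ hε.le hK hκ hκ1 hκl G hGne W X hX Y _ (Finset.filter_subset _ _) hYp hA
      (hrr _ (Finset.filter_subset _ _) hYp hnot)
      (IH _ (Finset.filter_subset _ _) (by omega) hYp X hX)
  -- case B
  by_cases hB : Real.log (Y.card : ℝ) -
      Real.log ((Y.filter (fun y => p ^ (j + 1) ∣ y)).card : ℝ) ≤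
      ε * hh (rX (p ^ (j + 1))) X
  · exact caseB ε lam _ hε.le hlam.le hK G hGne W (p ^ (j + 1)) X hX Y _
      (Finset.filter_subset _ _) hY0 (fun y hy => (Finset.mem_filter.1 hy).2) hB
      (fun X' hX' => IH _ (Finset.filter_subset _ _) (by omega) hY0 X' hX')
  have hclsub : ∀ y : ℕ, cl (rY (p ^ (j + 1))) Y y ⊆ Y := fun y => Finset.filter_subset _ _
  have IHcl : ∀ X' : Finset ℤ, X'.Nonempty → ∀ y ∈ Y,
      av G (fun g => dd g X' (cl (rY (p ^ (j + 1))) Y y)) ≤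
        Bd ε lam (C4 / t0) W X' (cl (rY (p ^ (j + 1))) Y y) := by
    intro X' hX' y hy
    exact IH _ (hclsub y) (cl_card_lt _ Y hYp hY0 y) ⟨y, mem_cl_self _ _ _ hy⟩ X' hX'
  -- case C
  by_cases hC : hh (rX (p ^ (j + 1))) X ≤ ε / 2 * hh (rY (p ^ (j + 1))) Y
  · exact caseC1 ε lam _ hε hlam.le hK G hGne W p j hp (hGc p hp hNC) X hX Y hY hC IHcl
  -- case E
  push Not at hA hB hC
  have hlow := hh_lower (rY (p ^ (j + 1))) Y (Y.filter (fun y => ¬ p ^ (j + 1) ∣ y)) hY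
    (Finset.filter_subset _ _) hYp (by
      intro y hy z hz
      unfold cl at hz
      rw [Finset.mem_filter] at hy hz ⊢
      refine ⟨hz.1, fun hd => hy.2 ?_⟩
      have h3 : ((z : ℕ) : ZMod (p ^ (j + 1))) = ((y : ℕ) : ZMod (p ^ (j + 1))) := hz.2
      have h4 : ((z : ℕ) : ZMod (p ^ (j + 1))) = 0 := (ZMod.natCast_eq_zero_iff _ _).2 hd
      rw [h4] at h3
      exact (ZMod.natCast_eq_zero_iff _ _).1 h3.symm)
  have hab : ((Y.filter (fun y => p ^ (j + 1) ∣ y)).card : ℝ) =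
      (Y.card : ℝ) - ((Y.filter (fun y => ¬ p ^ (j + 1) ∣ y)).card : ℝ) := by
    rw [← hcard]
    push_cast
    ring
  rw [hab] at hB
  have hY0r : (0 : ℝ) < ((Y.filter (fun y => p ^ (j + 1) ∣ y)).card : ℝ) := by
    exact_mod_cast hY00
  obtain ⟨hX4, hY4, hτ⟩ := mid ε κ (Y.card : ℝ)
    ((Y.filter (fun y => ¬ p ^ (j + 1) ∣ y)).card : ℝ) (hh (rX (p ^ (j + 1))) X)
    (hh (rY (p ^ (j + 1))) Y) hε hε1 hκ hκ1 (by exact_mod_cast Finset.card_pos.2 hY)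
    (by exact_mod_cast hYp0) (by rw [hab] at hY0r; linarith) (hh_nonneg _ _ hX)
    (hh_nonneg _ _ hY) hA hB hC hlow
  rw [← hC4] at hX4 hY4
  rw [← ht0e] at hτ
  by_cases hpW : p ∈ W
  · exact caseE2 ε lam _ C4 t0 hε.le hlam.le hK ht0 (by rw [div_mul_cancel₀ _ ht0.ne']) G hGne W
      p j hp hpW X hX Y hY hpos hdiv hNC hτ hY4 IHcl
  · obtain ⟨hGm, hGd⟩ := hW p hp hNC hpW
    refine caseE1 ε lam _ C4 δ t0 hε.le hlam.le hK hC40 hδ hδ1 hδt ht0 r hr G hGne (hmE hGm) W p j hp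
      hGd X hX Y hY hpos hdiv hτ hrr hX4 hY4 ?_
    intro X' hX' Y' hY' hne ⟨y, hy, hsub⟩
    exact IH Y' hY' (lt_of_le_of_lt (Finset.card_le_card hsub) (cl_card_lt _ Y hYp hY0 y)) hne X' hX'

end Pool.Agent.Helper89.DD
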