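import Pool.Agent.Helper89.DD.Defs

set_option autoImplicit false

/-! # Project DD: one peeling step -/

namespace Pool.Agent.Helper89.DD

open Finset

private theorem Step_card (P Z A : Finset ℕ)
    (hinj : ∀ s ∈ P, ∀ s' ∈ P, ∀ z ∈ Z, ∀ z' ∈ Z, s * z = s' * z' → s = s' ∧ z = z')
    (hA : ∀ x ∈ A, ∃ s ∈ P, ∃ z ∈ Z, s * z = x) :
    ∑ z ∈ Z, (P.filter (fun s => s * z ∈ A)).card = A.card := by
  classical
  have h1 : ((P ×ˢ Z).filter (fun p => p.1 * p.2 ∈ A)).card =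
      ∑ z ∈ Z, (P.filter (fun s => s * z ∈ A)).card := by
    rw [Finset.card_filter, Finset.sum_product_right]
    refine Finset.sum_congr rfl fun z _ => ?_
    rw [Finset.card_filter]
  rw [← h1]
  refine Finset.card_nbij (fun p => p.1 * p.2) ?_ ?_ ?_
  · intro p hp
    exact (Finset.mem_filter.1 hp).2
  · intro p hp p' hp' h
    rw [Finset.mem_coe, Finset.mem_filter, Finset.mem_product] at hp hp'
    obtain ⟨h2, h3⟩ := hinj p.1 hp.1.1 p'.1 hp'.1.1 p.2 hp.1.2 p'.2 hp'.1.2 h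
    exact Prod.ext h2 h3
  · intro x hx
    obtain ⟨s, hs, z, hz, h⟩ := hA x hx
    refine ⟨(s, z), ?_, h⟩
    rw [Finset.mem_coe, Finset.mem_filter, Finset.mem_product]
    refine ⟨⟨hs, hz⟩, ?_⟩
    show s * z ∈ A
    rw [h]
    exact hx

private theorem Step_sq (P Z A : Finset ℕ) :
    ∑ z ∈ Z, (P.filter (fun s => s * z ∈ A)).card ^ 2 =
      ∑ s ∈ P, ∑ t ∈ P, (Z.filter (fun z => s * z ∈ A ∧ t * z ∈ A)).card := by
  classical
  have h1 : ∀ z, (P.filter (fun s => s * z ∈ A)).card ^ 2 =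
      ∑ s ∈ P, ∑ t ∈ P, (if s * z ∈ A ∧ t * z ∈ A then 1 else 0) := by
    intro z
    rw [sq, Finset.card_filter, Finset.sum_mul_sum]
    refine Finset.sum_congr rfl fun s _ => Finset.sum_congr rfl fun t _ => ?_
    by_cases h : s * z ∈ A <;> by_cases h' : t * z ∈ A <;> simp [h, h']
  have h2 : ∀ s t, (Z.filter (fun z => s * z ∈ A ∧ t * z ∈ A)).card =
      ∑ z ∈ Z, (if s * z ∈ A ∧ t * z ∈ A then 1 else 0) := fun s t => Finset.card_filter _ _
  calc ∑ z ∈ Z, (P.filter (fun s => s * z ∈ A)).card ^ 2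
      = ∑ z ∈ Z, ∑ s ∈ P, ∑ t ∈ P, (if s * z ∈ A ∧ t * z ∈ A then 1 else 0) :=
        Finset.sum_congr rfl fun z _ => h1 z
    _ = ∑ s ∈ P, ∑ z ∈ Z, ∑ t ∈ P, (if s * z ∈ A ∧ t * z ∈ A then 1 else 0) := Finset.sum_comm
    _ = ∑ s ∈ P, ∑ t ∈ P, ∑ z ∈ Z, (if s * z ∈ A ∧ t * z ∈ A then 1 else 0) :=
        Finset.sum_congr rfl fun s _ => Finset.sum_comm
    _ = _ := Finset.sum_congr rfl fun s _ => Finset.sum_congr rfl fun t _ => (h2 s t).symm

/-- the Cauchy-Schwarz step: for `z ∈ Z` let `f z` be the number of `s ∈ P` with `s * z ∈ A`; then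
`∑ f = |A|`, `∑ f ^ 2 ≥ |A| ^ 2 / |Z|`, and `∑ f ^ 2` is `|A|` plus the sum over `s ≠ t` of the
numbers of `z` with `s * z, t * z ∈ A`; some pair has at least the average. -/
theorem step (P Z A : Finset ℕ)
    (hinj : ∀ s ∈ P, ∀ s' ∈ P, ∀ z ∈ Z, ∀ z' ∈ Z, s * z = s' * z' → s = s' ∧ z = z')
    (hA : ∀ x ∈ A, ∃ s ∈ P, ∃ z ∈ Z, s * z = x) (hZ : Z.Nonempty) (α : ℝ) (hα : 0 < α)
    (hP : 2 ≤ α ^ 2 * (P.card : ℝ)) (hα1 : α ≤ 1)
    (hcard : α * (P.card : ℝ) * (Z.card : ℝ) ≤ (A.card : ℝ)) :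
    ∃ s ∈ P, ∃ t ∈ P, s ≠ t ∧ α ^ 2 / 2 * (Z.card : ℝ) ≤
      ((Z.filter (fun z => s * z ∈ A ∧ t * z ∈ A)).card : ℝ) := by
  classical
  by_contra hcon
  push Not at hcon
  set f : ℕ → ℕ := fun z => (P.filter (fun s => s * z ∈ A)).card with hf
  set c : ℕ → ℕ → ℕ := fun s t => (Z.filter (fun z => s * z ∈ A ∧ t * z ∈ A)).card with hc
  have hsum : ∑ z ∈ Z, f z = A.card := Step_card P Z A hinj hA
  have hsq : ∑ z ∈ Z, f z ^ 2 = ∑ s ∈ P, ∑ t ∈ P, c s t := Step_sq P Z A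
  have hdiag : ∑ s ∈ P, c s s = A.card := by
    rw [← hsum]
    have h1 : ∀ s, c s s = ∑ z ∈ Z, (if s * z ∈ A then 1 else 0) := by
      intro s
      simp only [hc, and_self]
      exact Finset.card_filter _ _
    have h2 : ∀ z, f z = ∑ s ∈ P, (if s * z ∈ A then 1 else 0) := fun z => Finset.card_filter _ _
    rw [Finset.sum_congr rfl fun s _ => h1 s, Finset.sum_congr rfl fun z _ => h2 z, Finset.sum_comm]
  set z : ℝ := (Z.card : ℝ) with hz
  set p : ℝ := (P.card : ℝ) with hp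
  set a : ℝ := (A.card : ℝ) with ha
  have hz0 : 0 < z := by
    rw [hz]
    exact_mod_cast hZ.card_pos
  have hp0 : 0 < p := by
    by_contra h
    have : p ≤ 0 := not_lt.1 h
    nlinarith [sq_nonneg α]
  -- Cauchy-Schwarz
  have hCS : a ^ 2 ≤ z * ∑ w ∈ Z, ((f w : ℝ)) ^ 2 := by
    have h := sq_sum_le_card_mul_sum_sq (s := Z) (f := fun w => (f w : ℝ))
    have h2 : ∑ w ∈ Z, (f w : ℝ) = a := by
      rw [ha, ← hsum]
      push_cast
      rfl
    rw [h2] at h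
    exact h
  have hsq' : ∑ w ∈ Z, ((f w : ℝ)) ^ 2 = ∑ s ∈ P, ∑ t ∈ P, (c s t : ℝ) := by
    have := congrArg (Nat.cast : ℕ → ℝ) hsq
    push_cast at this
    exact this
  have hdiag' : ∑ s ∈ P, (c s s : ℝ) = a := by
    have := congrArg (Nat.cast : ℕ → ℝ) hdiag
    push_cast at this
    exact this
  -- the off-diagonal terms
  have hrow : ∀ s ∈ P, ∑ t ∈ P, (c s t : ℝ) ≤ (c s s : ℝ) + (p - 1) * (α ^ 2 / 2 * z) := by
    intro s hs
    rw [← Finset.add_sum_erase P (fun t => (c s t : ℝ)) hs]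
    have h1 : ∑ t ∈ P.erase s, (c s t : ℝ) ≤ ∑ _t ∈ P.erase s, (α ^ 2 / 2 * z) := by
      refine Finset.sum_le_sum fun t ht => ?_
      rw [Finset.mem_erase] at ht
      exact (hcon s hs t ht.2 (Ne.symm ht.1)).le
    have h2 : ∑ _t ∈ P.erase s, (α ^ 2 / 2 * z) = (p - 1) * (α ^ 2 / 2 * z) := by
      rw [Finset.sum_const, Finset.card_erase_of_mem hs, nsmul_eq_mul]
      have h3 : 1 ≤ P.card := Finset.card_pos.2 ⟨s, hs⟩
      push_cast [h3]
      rfl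
    linarith
  have hoff : ∑ s ∈ P, ∑ t ∈ P, (c s t : ℝ) ≤ a + p * ((p - 1) * (α ^ 2 / 2 * z)) := by
    refine (Finset.sum_le_sum hrow).trans ?_
    rw [Finset.sum_add_distrib, hdiag', Finset.sum_const, nsmul_eq_mul]
  rw [hsq'] at hCS
  have h4 : a ^ 2 ≤ z * (a + p * ((p - 1) * (α ^ 2 / 2 * z))) :=
    hCS.trans (mul_le_mul_of_nonneg_left hoff hz0.le)
  -- numbers
  set β : ℝ := α * p with hβ
  have hβ2 : 2 ≤ β := by
    have h5 : 2 ≤ α * β := by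
      rw [hβ]
      calc (2 : ℝ) ≤ α ^ 2 * p := hP
        _ = α * (α * p) := by ring
    have h6 : 0 < β := by positivity
    nlinarith
  have h7 : β * z ≤ a := hcard
  have h8 : β * z * (β * z / 2) ≤ a * (a - z) := by
    have h9 : β * z / 2 ≤ a - z := by nlinarith
    have h10 : 0 ≤ β * z / 2 := by positivity
    have h11 : 0 ≤ a := by
      rw [ha]
      exact Nat.cast_nonneg _
    exact mul_le_mul h7 h9 h10 h11
  have h12 : 0 < p * (α ^ 2 / 2) * z ^ 2 := by positivity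
  have h13 : z * (a + p * ((p - 1) * (α ^ 2 / 2 * z))) =
      z * a + β * z * (β * z / 2) - p * (α ^ 2 / 2) * z ^ 2 := by
    rw [hβ]
    ring
  rw [h13] at h4
  nlinarith

end Pool.Agent.Helper89.DD
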