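import Pool.Agent.Helper24.MD.Branch
import Pool.Agent.Helper89.DD.Box

set_option autoImplicit false

/-! # Project DD: valuations on a box over primes -/

namespace Pool.Agent.Helper89.DD

open Finset Pool.Agent.Helper24.MD

private theorem Val_not_dvd (a : ℕ → ℕ) (S : Finset ℕ) (hS : ∀ p ∈ S, p.Prime) (p : ℕ)
    (hp : p.Prime) (hpS : p ∉ S) : ∀ h ∈ box a S, ¬ p ∣ h := by
  intro h hh hd
  obtain ⟨e, -, rfl⟩ := (mem_box a S h).1 hh
  obtain ⟨q, hq, hpq⟩ := (hp.prime.dvd_finsetProd_iff _).1 hd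
  have h1 : p ∣ q := hp.dvd_of_dvd_pow hpq
  have h2 : p = q := (Nat.prime_dvd_prime_iff_eq hp (hS q hq)).1 h1
  rw [h2] at hpS
  exact hpS hq

/-- only the primes of `S` have non-constant valuation on a subset of the box over `S` -/
theorem NC_box (a : ℕ → ℕ) (S : Finset ℕ) (hS : ∀ p ∈ S, p.Prime) (Y : Finset ℕ)
    (hY : Y ⊆ box a S) (p : ℕ) (h : NC Y p) : p ∈ S := by
  by_contra hpS
  obtain ⟨x, hx, y, hy, hxy⟩ := h
  apply hxy
  have key : ∀ z ∈ box a S, z.factorization p = 0 := by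
    intro z hz
    by_cases hp : p.Prime
    · exact Nat.factorization_eq_zero_of_not_dvd (Val_not_dvd a S hS p hp hpS z hz)
    · exact Nat.factorization_eq_zero_of_not_prime z hp
  rw [key x (hY hx), key y (hY hy)]

/-- the elements of a box over `S` are prime to the primes outside `S` -/
theorem not_dvd_box (a : ℕ → ℕ) (S : Finset ℕ) (hS : ∀ p ∈ S, p.Prime) (p : ℕ) (hp : p.Prime)
    (hpS : p ∉ S) : ∀ h ∈ box a S, ¬ p ∣ h :=
  Val_not_dvd a S hS p hp hpS

/-- the tree rank of a subset of the box is at most the number of primes (`rr_le_card`) -/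
theorem rr_box (a : ℕ → ℕ) (S : Finset ℕ) (hS : ∀ p ∈ S, p.Prime) (Y : Finset ℕ)
    (hY : Y ⊆ box a S) : rr Y ≤ S.card :=
  rr_le_card Y (fun y hy => box_pos a S (fun q hq => (hS q hq).pos) y (hY hy)) S
    (fun p _ hNC => NC_box a S hS Y hY p hNC)

end Pool.Agent.Helper89.DD
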