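import Pool.Agent.Helper24.MD.KFold
import Pool.Agent.Helper89.DD.PropS2
import Pool.Agent.Helper89.DD.Val
import Pool.Agent.Helper89.DD.Bad

set_option autoImplicit false

/-! # Project DD: sums of a set containing many dilates -/

namespace Pool.Agent.Helper89.DD

open Finset Pool.Agent.Helper24.MD

/-- `propS2` and `kfold` (with `B = lam rr Y + K qq W Y`), `rr_box`, `qq W Y ≤ |W|`; the sums
`∑ g i * f i`, `g i ∈ H`, `f i ∈ Y`, are sums of `k` elements of `A` -/
theorem sum_bound (ε lam : ℝ) (hε : 0 < ε) (hε1 : ε ≤ 1) (hlam : 0 < lam) :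
    ∃ m : ℕ, ∃ K : ℝ, 0 ≤ K ∧ ∀ (k : ℕ) (a : ℕ → ℕ) (T : Finset ℕ), (∀ p ∈ T, p.Prime) →
      ∀ Y ⊆ box a T, Y.Nonempty → ∀ H : Finset ℕ, H.Nonempty → ∀ W : Finset ℕ,
      (∀ p ∈ T, ∀ h ∈ H, ¬ p ∣ h) →
      (T ⊆ W ∨ (m ≤ H.card ∧ ∀ p ∈ T, p ∉ W → ¬ p ∣ diffs H)) →
      ∀ A : Finset ℕ, (∀ h ∈ H, ∀ y ∈ Y, h * y ∈ A) →
        (k : ℝ) * Real.log (Y.card : ℝ) - (k : ℝ) * (((k : ℝ) + 1) * ε * Real.log (Y.card : ℝ) +
          (lam * (T.card : ℝ) + K * (W.card : ℝ))) ≤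
        Real.log ((((Fintype.piFinset (fun _ : Fin k => A)).image
          (fun f : Fin k → ℕ => ∑ i, f i)).card : ℕ) : ℝ) := by
  classical
  obtain ⟨m, K, hK, hS⟩ := propS2 ε lam hε hε1 hlam
  refine ⟨m, K, hK, ?_⟩
  intro k a T hT Y hYT hY H hH W hHc hW A hA
  have hpos : ∀ y ∈ Y, 0 < y := by
    intro y hy
    have h := hYT hy
    unfold box at h
    rw [Finset.mem_image] at h
    obtain ⟨e, -, rfl⟩ := h
    exact Finset.prod_pos (fun q _ => pow_pos (hT q q.2).pos _)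
  have hprop : ∀ X : Finset ℤ, X.Nonempty → av H (fun g => dd g X Y) ≤
      ε * Real.log (X.card : ℝ) + ε * Real.log (Y.card : ℝ) +
        (lam * (T.card : ℝ) + K * (W.card : ℝ)) := by
    intro X hX
    have h1 := hS H hH W Y hY hpos
      (fun p _ hnc g hg => hHc p (NC_box a T hT Y hYT p hnc) g hg) (by
        intro p _ hnc hpW
        have hpT := NC_box a T hT Y hYT p hnc
        rcases hW with h | ⟨hm, hd⟩
        · exact absurd (h hpT) hpW
        · exact ⟨hm, dvd_diffs H p (hd p hpT hpW)⟩) X hX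
    have h2 : lam * (rr Y : ℝ) ≤ lam * (T.card : ℝ) :=
      mul_le_mul_of_nonneg_left (by exact_mod_cast rr_box a T hT Y hYT) hlam.le
    have h3 : K * (qq W Y : ℝ) ≤ K * (W.card : ℝ) := by
      refine mul_le_mul_of_nonneg_left ?_ hK
      unfold qq
      exact_mod_cast Finset.card_filter_le _ _
    unfold Bd at h1
    linarith
  obtain ⟨g, hg, hgk⟩ := kfold ε (lam * (T.card : ℝ) + K * (W.card : ℝ)) hε.le (by positivity) H hH
    Y hY hprop k
  refine hgk.trans (Real.log_le_log ?_ ?_)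
  · exact_mod_cast Finset.card_pos.2 ((Fintype.piFinset_nonempty.2 fun _ => hY).image _)
  · have hsub : (Fintype.piFinset (fun _ : Fin k => Y)).image
        (fun f : Fin k → ℕ => ∑ i, ((g i : ℕ) : ℤ) * ((f i : ℕ) : ℤ)) ⊆
        ((Fintype.piFinset (fun _ : Fin k => A)).image
          (fun f : Fin k → ℕ => ∑ i, f i)).image (fun n : ℕ => (n : ℤ)) := by
      intro z hz
      obtain ⟨f, hf, rfl⟩ := Finset.mem_image.1 hz
      rw [Fintype.mem_piFinset] at hf
      refine Finset.mem_image.2 ⟨∑ i, g i * f i, Finset.mem_image.2 ⟨fun i => g i * f i, ?_, rfl⟩, ?_⟩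
      · rw [Fintype.mem_piFinset]
        intro i
        exact hA (g i) (hg i) (f i) (hf i)
      · push_cast
        rfl
    exact_mod_cast (Finset.card_le_card hsub).trans Finset.card_image_le

end Pool.Agent.Helper89.DD
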