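import Pool.Agent.Helper24.MD.KFold
import Pool.Agent.Helper82.MQ.Base
import Pool.Agent.Helper89.DD.Box
import Pool.Agent.Helper89.DD.Bad

set_option autoImplicit false

/-! # Project DD: sums of a set containing many dilates, coprime bases -/

namespace Pool.Agent.Helper89.DD

open Finset Pool.Agent.Helper82.MQ
open Pool.Agent.Helper24.MD (av dd sm kfold)

/-- if every prime power `p ^ v_p(q)`, `p ∣ q`, divides a difference, then `q` divides the
product of the differences -/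
theorem dvd_diffs_of (H : Finset ℕ) (q : ℕ) (hq : q ≠ 0)
    (h : ∀ p : ℕ, p.Prime → p ∣ q → ∃ g ∈ H, ∃ g' ∈ H, g ≠ g' ∧
      ((p ^ (q.factorization p) : ℕ) : ℤ) ∣ (g : ℤ) - g') : q ∣ diffs H := by
  rw [← Nat.factorization_prime_le_iff_dvd hq (diffs_pos H).ne']
  intro p hp
  by_cases hpq : p ∣ q
  · obtain ⟨g, hg, g', hg', hne, hd⟩ := h p hp hpq
    rw [← hp.pow_dvd_iff_le_factorization (diffs_pos H).ne']
    have h3 : p ^ (q.factorization p) ∣ ((g : ℤ) - g').natAbs := Int.natCast_dvd.1 hd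
    refine h3.trans ?_
    unfold diffs
    exact Finset.dvd_prod_of_mem (fun x : ℕ × ℕ => ((x.1 : ℤ) - (x.2 : ℤ)).natAbs)
      (Finset.mem_offDiag.2 ⟨hg, hg', hne⟩ : (g, g') ∈ H.offDiag)
  · rw [Nat.factorization_eq_zero_of_not_dvd hpq]
    exact Nat.zero_le _

/-- sums of dilates from `H` of `Y` are sums of elements of `A` -/
theorem sums_le (k : ℕ) (Y H A : Finset ℕ) (hHY : ∀ h ∈ H, ∀ y ∈ Y, h * y ∈ A) (g : Fin k → ℕ)
    (hg : ∀ i, g i ∈ H) :
    ((Fintype.piFinset (fun _ : Fin k => Y)).image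
      (fun f : Fin k → ℕ => ∑ i, ((g i : ℕ) : ℤ) * ((f i : ℕ) : ℤ))).card ≤
    ((Fintype.piFinset (fun _ : Fin k => A)).image (fun f : Fin k → ℕ => ∑ i, f i)).card := by
  classical
  have hsub : ((Fintype.piFinset (fun _ : Fin k => Y)).image
      (fun f : Fin k → ℕ => ∑ i, ((g i : ℕ) : ℤ) * ((f i : ℕ) : ℤ))) ⊆
      ((Fintype.piFinset (fun _ : Fin k => A)).image (fun f : Fin k → ℕ => ∑ i, f i)).image
        (fun z : ℕ => (z : ℤ)) := by
    intro z hz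
    obtain ⟨f, hf, rfl⟩ := Finset.mem_image.1 hz
    rw [Fintype.mem_piFinset] at hf
    refine Finset.mem_image.2 ⟨∑ i, g i * f i, ?_, by push_cast; rfl⟩
    refine Finset.mem_image.2 ⟨fun i => g i * f i, ?_, rfl⟩
    rw [Fintype.mem_piFinset]
    intro i
    exact hHY _ (hg i) _ (hf i)
  exact (Finset.card_le_card hsub).trans Finset.card_image_le

theorem sum_boundQ (ε lam : ℝ) (hε : 0 < ε) (hε1 : ε ≤ 1) (hlam : 0 < lam) :
    ∃ m : ℕ, ∃ K : ℝ, 0 ≤ K ∧ ∀ (k : ℕ) (a : ℕ → ℕ) (T : Finset ℕ), IsBase T →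
      ∀ Y ⊆ box a T, Y.Nonempty → ∀ H : Finset ℕ, H.Nonempty → ∀ W : Finset ℕ,
      (∀ q ∈ T, ∀ h ∈ H, Nat.Coprime q h) →
      (T ⊆ W ∨ (m ≤ H.card ∧ ∀ q ∈ T, q ∉ W → ¬ q ∣ diffs H)) →
      ∀ A : Finset ℕ, (∀ h ∈ H, ∀ y ∈ Y, h * y ∈ A) →
        (k : ℝ) * Real.log (Y.card : ℝ) - (k : ℝ) * (((k : ℝ) + 1) * ε * Real.log (Y.card : ℝ) +
          (lam * (T.card : ℝ) + K * (W.card : ℝ))) ≤
        Real.log ((((Fintype.piFinset (fun _ : Fin k => A)).image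
          (fun f : Fin k → ℕ => ∑ i, f i)).card : ℕ) : ℝ) := by
  classical
  obtain ⟨m, -, K, hK, hprop⟩ := propS ε lam hε hε1 hlam
  refine ⟨m, K, hK, ?_⟩
  intro k a T hT Y hY hYne H hH W hcop hor A hHY
  let good : ℕ → ℕ → Prop := fun q p => p.Prime ∧ p ∣ q ∧ ∀ g ∈ H, ∀ g' ∈ H, g ≠ g' →
    ¬ ((p ^ (q.factorization p) : ℕ) : ℤ) ∣ (g : ℤ) - g'
  let P : ℕ → ℕ := fun q => if h : ∃ p, good q p then h.choose else q.minFac
  have hP : ∀ q ∈ T, (P q).Prime ∧ P q ∣ q := by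
    intro q hq
    by_cases h : ∃ p, good q p
    · have h1 : P q = h.choose := dif_pos h
      rw [h1]
      exact ⟨h.choose_spec.1, h.choose_spec.2.1⟩
    · have h1 : P q = q.minFac := dif_neg h
      rw [h1]
      exact ⟨Nat.minFac_prime (by have := hT.1 q hq; omega), Nat.minFac_dvd q⟩
  have hgood : ∀ q ∈ T, q ∉ W → m ≤ H.card ∧ ∀ g ∈ H, ∀ g' ∈ H, g ≠ g' →
      ¬ (((P q) ^ (q.factorization (P q)) : ℕ) : ℤ) ∣ (g : ℤ) - g' := by
    intro q hq hqW
    rcases hor with hTW | ⟨hm, hd⟩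
    · exact absurd (hTW hq) hqW
    · refine ⟨hm, ?_⟩
      have h : ∃ p, good q p := by
        by_contra hcon
        apply hd q hq hqW
        apply dvd_diffs_of H q (by have := hT.1 q hq; omega)
        intro p hp hpq
        by_contra hcon2
        push Not at hcon2
        exact hcon ⟨p, hp, hpq, hcon2⟩
      have h1 : P q = h.choose := dif_pos h
      rw [h1]
      exact h.choose_spec.2.2
  have hcop' : ∀ q ∈ T, (∀ g ∈ H, ¬ P q ∣ g) ∨
      (m ≤ H.card ∧ ∀ g ∈ H, ∀ g' ∈ H, P q ∣ g → P q ∣ g' → g = g') := by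
    intro q hq
    left
    intro g hg hd
    have h4 := Nat.dvd_gcd (hP q hq).2 hd
    rw [hcop q hq g hg] at h4
    exact (hP q hq).1.one_lt.ne' (Nat.dvd_one.1 h4)
  have hYe : ∀ y ∈ Y, ∃ e : ℕ → ℕ, y = 1 * ∏ q ∈ T, q ^ e q := by
    intro y hy
    obtain ⟨e, -, he⟩ := (mem_box a T y).1 (hY hy)
    exact ⟨e, by rw [one_mul]; exact he⟩
  have hB0 : 0 ≤ FF lam K T W P Y := FF_nonneg hlam.le hK T W P Y
  obtain ⟨g, hg, hgs⟩ := kfold ε (FF lam K T W P Y) hε.le hB0 H hH Y hYne (by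
    intro X hX
    have h1 := hprop H hH (FF lam K T W P) (FF_nonneg hlam.le hK T W P)
      (FF_mono hlam.le hK T W P) Y hYne
      (nodes m lam K hlam.le hK T W H hT.1 hT.2 P hP hcop' hgood 1 one_pos Y hYe) X hX
    unfold Bd at h1
    exact h1) k
  have hFF := FF_le hlam.le hK T W P Y
  have hk0 : (0 : ℝ) ≤ (k : ℝ) := Nat.cast_nonneg _
  have h2 := mul_le_mul_of_nonneg_left hFF hk0
  have h3 := sums_le k Y H A hHY g hg
  have h4 : (0 : ℝ) < ((((Fintype.piFinset (fun _ : Fin k => Y)).image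
      (fun f : Fin k → ℕ => ∑ i, ((g i : ℕ) : ℤ) * ((f i : ℕ) : ℤ))).card : ℕ) : ℝ) := by
    exact_mod_cast Finset.card_pos.2 ((Fintype.piFinset_nonempty.2 fun _ => hYne).image _)
  have h5 := Real.log_le_log h4 (by exact_mod_cast h3 : _ ≤
    ((((Fintype.piFinset (fun _ : Fin k => A)).image
      (fun f : Fin k → ℕ => ∑ i, f i)).card : ℕ) : ℝ))
  refine le_trans ?_ (hgs.trans h5)
  nlinarith

end Pool.Agent.Helper89.DD
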