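import Pool.Agent.Helper89.DD.SumQ

set_option autoImplicit false

/-! # Project DD: the sum of any set and a set containing many dilates -/

namespace Pool.Agent.Helper89.DD

open Finset Pool.Agent.Helper82.MQ
open Pool.Agent.Helper24.MD (av dd sm kf_min)

theorem sum_boundX (ε lam : ℝ) (hε : 0 < ε) (hε1 : ε ≤ 1) (hlam : 0 < lam) :
    ∃ m : ℕ, ∃ K : ℝ, 0 ≤ K ∧ ∀ (T : Finset ℕ), IsBase T → ∀ x0 : ℕ, 0 < x0 →
      ∀ Y : Finset ℕ, (∀ y ∈ Y, ∃ e : ℕ → ℕ, y = x0 * ∏ q ∈ T, q ^ e q) → Y.Nonempty → ∀ H : Finset ℕ, H.Nonempty → ∀ W : Finset ℕ,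
      (∀ q ∈ T, ∀ h ∈ H, Nat.Coprime q h) →
      (T ⊆ W ∨ (m ≤ H.card ∧ ∀ q ∈ T, q ∉ W → ¬ q ∣ diffs H)) →
      ∀ A : Finset ℕ, (∀ h ∈ H, ∀ y ∈ Y, h * y ∈ A) → ∀ X : Finset ℤ, X.Nonempty →
        Real.log (X.card : ℝ) + Real.log (Y.card : ℝ) -
          (ε * Real.log (X.card : ℝ) + ε * Real.log (Y.card : ℝ) +
          (lam * (T.card : ℝ) + K * (W.card : ℝ))) ≤
        Real.log (((Finset.image₂ (fun (x : ℤ) (y : ℕ) => x + (y : ℤ)) X A).card : ℕ) : ℝ) := by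
  classical
  obtain ⟨m, -, K, hK, hprop⟩ := propS ε lam hε hε1 hlam
  refine ⟨m, K, hK, ?_⟩
  intro T hT x0 hx0 Y hYe hYne H hH W hcop hor A hHY X hX
  let good : ℕ → ℕ → Prop := fun q p => p.Prime ∧ p ∣ q ∧ ∀ g ∈ H, ∀ g' ∈ H, g ≠ g' →
    ¬ ((p ^ (q.factorization p) : ℕ) : ℤ) ∣ (g : ℤ) - g'
  let P : ℕ → ℕ := fun q => if h : ∃ p, good q p then h.choose else q.minFac
  have hP : ∀ q ∈ T, (P q).Prime ∧ P q ∣ q := by
    intro q hq
    by_cases h : ∃ p, good q p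
    · have h1 : P q = h.choose := dif_pos h
      rw [h1]
      exact ⟨h.choose_spec.1, h.choose_spec.2.1⟩
    · have h1 : P q = q.minFac := dif_neg h
      rw [h1]
      exact ⟨Nat.minFac_prime (by have := hT.1 q hq; omega), Nat.minFac_dvd q⟩
  have hgood : ∀ q ∈ T, q ∉ W → m ≤ H.card ∧ ∀ g ∈ H, ∀ g' ∈ H, g ≠ g' →
      ¬ (((P q) ^ (q.factorization (P q)) : ℕ) : ℤ) ∣ (g : ℤ) - g' := by
    intro q hq hqW
    rcases hor with hTW | ⟨hm, hd⟩
    · exact absurd (hTW hq) hqW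
    · refine ⟨hm, ?_⟩
      have h : ∃ p, good q p := by
        by_contra hcon
        apply hd q hq hqW
        apply dvd_diffs_of H q (by have := hT.1 q hq; omega)
        intro p hp hpq
        by_contra hcon2
        push Not at hcon2
        exact hcon ⟨p, hp, hpq, hcon2⟩
      have h1 : P q = h.choose := dif_pos h
      rw [h1]
      exact h.choose_spec.2.2
  have hcop' : ∀ q ∈ T, (∀ g ∈ H, ¬ P q ∣ g) ∨
      (m ≤ H.card ∧ ∀ g ∈ H, ∀ g' ∈ H, P q ∣ g → P q ∣ g' → g = g') := by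
    intro q hq
    left
    intro g hg hd
    have h4 := Nat.dvd_gcd (hP q hq).2 hd
    rw [hcop q hq g hg] at h4
    exact (hP q hq).1.one_lt.ne' (Nat.dvd_one.1 h4)
  have h1 := hprop H hH (FF lam K T W P) (FF_nonneg hlam.le hK T W P)
    (FF_mono hlam.le hK T W P) Y hYne
    (nodes m lam K hlam.le hK T W H hT.1 hT.2 P hP hcop' hgood x0 hx0 Y hYe) X hX
  obtain ⟨g, hg, hgX⟩ := kf_min H hH _ _ h1
  unfold Bd at hgX
  unfold dd at hgX
  have hFF := FF_le hlam.le hK T W P Y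
  have hsub : sm g X Y ⊆ Finset.image₂ (fun (x : ℤ) (y : ℕ) => x + (y : ℤ)) X A := by
    intro z hz
    unfold sm at hz
    obtain ⟨x, hx, y, hy, rfl⟩ := Finset.mem_image₂.1 hz
    refine Finset.mem_image₂.2 ⟨x, hx, g * y, hHY g hg y hy, ?_⟩
    push_cast
    ring
  have hne : (0 : ℝ) < ((sm g X Y).card : ℝ) := by
    have : (sm g X Y).Nonempty := by
      unfold sm
      exact hX.image₂ hYne
    exact_mod_cast Finset.card_pos.2 this
  have h2 := Real.log_le_log hne (by exact_mod_cast Finset.card_le_card hsub : _ ≤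
    (((Finset.image₂ (fun (x : ℤ) (y : ℕ) => x + (y : ℤ)) X A).card : ℕ) : ℝ))
  linarith

end Pool.Agent.Helper89.DD
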